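import Pool.Agent.W688.TB.Glue

open scoped BigOperators Topology ENNReal
open Filter Set MeasureTheory H316F

namespace Pool.Agent.W688.TBA

open Pool.Agent.W692.TB Pool.Agent.W688.TBG

theorem ix_lt (k : ℕ) : ix k < 2 ^ lv k := by
  unfold ix lv
  rcases Nat.eq_zero_or_pos k with h | h
  · subst h; simp
  · have h1 := Nat.lt_pow_succ_log_self (b := 2) (by norm_num) k
    rw [pow_succ] at h1
    omega

/-- the states of the recursion -/
structure St (p : ℝ≥0∞) [Fact (1 ≤ p)] where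
  F : X p
  μ : ℕ
  m0 : ℕ
  δ : ℝ
  hF : 1 / 2 + 2 * δ ≤ ‖F‖
  hμ : 1 ≤ μ
  hs : SuppOn (Bx μ) F
  hδ : 0 < δ

/-- uniqueness of the block decomposition -/
theorem psum_uniq (n : ℕ → ℕ) {k j k' j' : ℕ} (hj : j < n k) (hj' : j' < n k')
    (h : psum n k + j = psum n k' + j') : k = k' ∧ j = j' := by
  have mono : ∀ a b : ℕ, a ≤ b → psum n a ≤ psum n b := by
    intro a b hab
    unfold psum
    exact Finset.sum_le_sum_of_subset (Finset.range_subset_range.mpr hab)
  have key : ∀ {k j k' j' : ℕ}, j < n k → j' < n k' → psum n k + j = psum n k' + j' → ¬ k < k' := by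
    intro k j k' j' hj hj' h hlt
    have h1 := mono (k + 1) k' hlt
    rw [psum_succ] at h1
    omega
  have h1 := key hj hj' h
  have h2 := key hj' hj h.symm
  have h3 : k = k' := by omega
  subst h3
  exact ⟨rfl, by omega⟩

theorem sum_psum (n : ℕ → ℕ) (θ : ℕ → ℝ) (K : ℕ) :
    ∑ i ∈ Finset.range (psum n K), θ i =
      ∑ k ∈ Finset.range K, ∑ j ∈ Finset.range (n k), θ (psum n k + j) := by
  induction K with
  | zero => simp [psum]
  | succ K ih => rw [psum_succ, Finset.sum_range_add, ih, Finset.sum_range_succ]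

theorem t_asm : S_asm := by
  intro hHaar hExt hBasic hPert hArena hHc hGlue hStage p hp1 h1 h2
  have hp : p ≠ ⊤ := ne_top_of_lt h2
  have hq1 : 1 < p.toReal := by
    have := (ENNReal.toReal_lt_toReal (by norm_num) hp).mpr h1
    simpa using this
  obtain ⟨Cs, hCs, stage⟩ := hStage p h1 h2
  obtain ⟨ca, Ca, hca, hCa, arena⟩ := hArena p h1 h2
  obtain ⟨haar1, haar2, e, he1, he2⟩ := hHaar p h1 hp
  set B : ℝ := Ca / ca with hB
  have hB0 : 0 < B := div_pos hCa hca
  obtain ⟨K, hK, glue⟩ := hGlue p hp B (2 * Cs) hB0 (by positivity)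
  obtain ⟨δ0, hδ0, hδ1, hδ2, hδ3⟩ : ∃ δ0 : ℝ, 0 < δ0 ∧ δ0 ≤ 1 / 4 ∧ K * (4 * δ0) ≤ 1 / 2 ∧
      2 * B * (6 * δ0) ≤ 1 / 2 := by
    refine ⟨min (1 / 4) (min (1 / (8 * K)) (1 / (24 * B))), ?_, min_le_left _ _, ?_, ?_⟩
    · positivity
    · have h3 : min (1 / 4) (min (1 / (8 * K)) (1 / (24 * B))) ≤ 1 / (8 * K) :=
        (min_le_right _ _).trans (min_le_left _ _)
      calc K * (4 * min (1 / 4) (min (1 / (8 * K)) (1 / (24 * B)))) ≤ K * (4 * (1 / (8 * K))) := by
            gcongr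
        _ = 1 / 2 := by field_simp; norm_num
    · have h3 : min (1 / 4) (min (1 / (8 * K)) (1 / (24 * B))) ≤ 1 / (24 * B) :=
        (min_le_right _ _).trans (min_le_right _ _)
      calc 2 * B * (6 * min (1 / 4) (min (1 / (8 * K)) (1 / (24 * B)))) ≤
            2 * B * (6 * (1 / (24 * B))) := by
            gcongr
        _ = 1 / 2 := by field_simp; norm_num
  -- the step
  have step : ∀ (k : ℕ) (s : St p), ∃ (s' : St p) (n a : ℕ) (lam : ℕ → ℝ) (r : ℕ → X p) (κ : ℝ),
      1 ≤ n ∧ s.μ < s'.μ ∧ 1 ≤ a ∧ s.m0 + a ≤ s'.m0 ∧ lv k + a ≤ s'.m0 ∧ 0 < κ ∧ 1 ≤ κ * n ∧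
        ‖s'.F - s.F‖ ≤ s.δ ∧
        (∀ j < n, SuppOn (An s.μ s'.μ) (r j)) ∧
        (∀ (c : ℕ → ℝ) (N : ℕ), N ≤ n →
          ‖∑ j ∈ Finset.range N, c j • r j‖ + |κ * ∑ j ∈ Finset.range N, c j| ≤
            Cs * (‖∑ j ∈ Finset.range n, c j • r j‖ + |κ * ∑ j ∈ Finset.range n, c j|)) ∧
        (∀ c : ℕ → ℝ, ∀ j < n, |c j| * ‖s.F‖ ≤
            Cs * (‖∑ j ∈ Finset.range n, c j • r j‖ + |κ * ∑ j ∈ Finset.range n, c j|)) ∧
        ‖∑ j ∈ Finset.range n, r j‖ ≤ s.δ * (κ * n) ∧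
        ∑ j ∈ Finset.range n, ‖Tr ℝ p (lam j) s'.F - (r j + κ • hc p (lv k) (ix k) a s'.m0 1)‖ ≤
          s.δ ∧ s'.δ = s.δ / (4 * (n + 1)) := by
    intro k s
    have hF0 : s.F ≠ 0 := by
      intro h0
      have := s.hF
      rw [h0, norm_zero] at this
      linarith [s.hδ]
    obtain ⟨n, μ', a, M, F', lam, r, κ, c1, c2, c3, c4, c5, c6, c7, c8, c9, c10, c11, c12, c13, c14⟩ :=
      stage s.F s.μ (lv k) (ix k) s.m0 s.δ hF0 s.hμ s.hs (ix_lt k) s.hδ
    have hn : (1:ℝ) ≤ n := by exact_mod_cast c1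
    have hδs := s.hδ
    have hδ' : s.δ / (4 * ((n:ℝ) + 1)) ≤ s.δ / 8 := by
      apply div_le_div_of_nonneg_left hδs.le (by norm_num)
      linarith
    refine ⟨⟨F', μ', M, s.δ / (4 * (n + 1)), ?_, by have := s.hμ; omega, c9, by positivity⟩,
      n, a, lam, r, κ, c1, c2, c3, c4, c5, c6, c7, c8, c10, c11, c12, c13, c14, rfl⟩
    have h3 : ‖s.F‖ ≤ ‖F'‖ + ‖F' - s.F‖ := by
      have : s.F = F' - (F' - s.F) := by abel
      calc ‖s.F‖ = ‖F' - (F' - s.F)‖ := by rw [← this]
        _ ≤ _ := norm_sub_le _ _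
    have h4 := s.hF
    linarith
  choose nxt nn aa lam rr κκ H using step
  -- the start
  have hstart : SuppOn (Bx 1) (Hr p 0) := by
    have : Hr p 0 = ind p 0 0 := by unfold Hr; simp
    rw [this]
    refine (ind_supp 0 0).mono ?_
    intro t ht
    unfold cell at ht
    unfold Bx
    simp only [pow_zero, div_one, mem_Ico, pow_one] at ht ⊢
    push_cast at ht
    constructor <;> linarith [ht.1, ht.2]
  let s0 : St p := ⟨Hr p 0, 1, 0, δ0, by rw [haar2 0]; linarith, le_rfl, hstart, hδ0⟩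
  let S : ℕ → St p := fun k => Nat.rec s0 (fun k s => nxt k s) k
  have hS0 : S 0 = s0 := rfl
  have hSs : ∀ k, S (k + 1) = nxt k (S k) := fun k => rfl
  set n : ℕ → ℕ := fun k => nn k (S k) with hn
  set a : ℕ → ℕ := fun k => aa k (S k) with ha
  set M : ℕ → ℕ := fun k => (S (k + 1)).m0 with hM
  set δ : ℕ → ℝ := fun k => (S k).δ with hδdef
  set μ : ℕ → ℕ := fun k => (S k).μ with hμdef
  set F : ℕ → X p := fun k => (S k).F with hFdef
  set r : ℕ → ℕ → X p := fun k => rr k (S k) with hr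
  set κ : ℕ → ℝ := fun k => κκ k (S k) with hκ
  set la : ℕ → ℕ → ℝ := fun k => lam k (S k) with hla
  set h : ℕ → X p := fun k => hc p (lv k) (ix k) (a k) (M k) 1 with hh
  have H' : ∀ k, 1 ≤ n k ∧ μ k < μ (k + 1) ∧ 1 ≤ a k ∧ (S k).m0 + a k ≤ M k ∧ lv k + a k ≤ M k ∧
      0 < κ k ∧ 1 ≤ κ k * n k ∧ ‖F (k + 1) - F k‖ ≤ δ k ∧
        (∀ j < n k, SuppOn (An (μ k) (μ (k + 1))) (r k j)) ∧
        (∀ (c : ℕ → ℝ) (N : ℕ), N ≤ n k →
          ‖∑ j ∈ Finset.range N, c j • r k j‖ + |κ k * ∑ j ∈ Finset.range N, c j| ≤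
            Cs * (‖∑ j ∈ Finset.range (n k), c j • r k j‖ +
              |κ k * ∑ j ∈ Finset.range (n k), c j|)) ∧
        (∀ c : ℕ → ℝ, ∀ j < n k, |c j| * ‖F k‖ ≤
            Cs * (‖∑ j ∈ Finset.range (n k), c j • r k j‖ +
              |κ k * ∑ j ∈ Finset.range (n k), c j|)) ∧
        ‖∑ j ∈ Finset.range (n k), r k j‖ ≤ δ k * (κ k * n k) ∧
        ∑ j ∈ Finset.range (n k), ‖Tr ℝ p (la k j) (F (k + 1)) - (r k j + κ k • h k)‖ ≤ δ k ∧
        δ (k + 1) = δ k / (4 * (n k + 1)) := fun k => H k (S k)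
  have hδpos : ∀ k, 0 < δ k := fun k => (S k).hδ
  have hn1 : ∀ k, 1 ≤ n k := fun k => (H' k).1
  have hδhalf : ∀ k, δ (k + 1) ≤ δ k / 2 := by
    intro k
    obtain ⟨c1, c2, c3, c4, c5, c6, c7, c8, c9, c10, c11, c12, c13, c14⟩ := H' k
    rw [c14]
    apply div_le_div_of_nonneg_left (hδpos k).le (by norm_num)
    have : (1:ℝ) ≤ n k := by exact_mod_cast c1
    linarith
  have hδgeo : ∀ k, δ k ≤ δ0 * (1 / 2) ^ k := by
    intro k
    induction k with
    | zero => simp [hδdef, hS0, s0]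
    | succ k ih =>
      have := hδhalf k
      rw [pow_succ]
      linarith
  have hδsum : ∀ N, ∑ k ∈ Finset.range N, δ k ≤ 2 * δ0 - 2 * δ N := by
    intro N
    induction N with
    | zero => simp [hδdef, hS0, s0]
    | succ k ih =>
      rw [Finset.sum_range_succ]
      have := hδhalf k
      linarith
  have hδsum' : ∀ N, ∑ k ∈ Finset.range N, δ k ≤ 2 * δ0 := by
    intro N
    linarith [hδsum N, hδpos N]
  -- the limit
  have hcau : CauchySeq F := by
    apply cauchySeq_of_le_geometric (1 / 2) δ0 (by norm_num)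
    intro k
    rw [dist_comm, dist_eq_norm]
    exact (H' k).2.2.2.2.2.2.2.1.trans (hδgeo k)
  obtain ⟨f, hf⟩ := cauchySeq_tendsto_of_complete hcau
  have hdist : ∀ k j, ‖F (k + j) - F k‖ ≤ 2 * δ k - 2 * δ (k + j) := by
    intro k j
    induction j with
    | zero => simp
    | succ j ih =>
      have h3 := (H' (k + j)).2.2.2.2.2.2.2.1
      have h4 := hδhalf (k + j)
      have h5 : F (k + (j + 1)) - F k = (F (k + j + 1) - F (k + j)) + (F (k + j) - F k) := by
        rw [← add_assoc]; abel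
      rw [h5]
      refine (norm_add_le _ _).trans ?_
      rw [← add_assoc]
      linarith
  have hfF : ∀ k, ‖f - F k‖ ≤ 2 * δ k := by
    intro k
    have h3 : Tendsto (fun j => ‖F (k + j) - F k‖) atTop (𝓝 ‖f - F k‖) := by
      have h4 : Tendsto (fun j => F (k + j)) atTop (𝓝 f) := by
        have := (tendsto_add_atTop_iff_nat k).mpr hf
        simpa [add_comm] using this
      exact (h4.sub_const _).norm
    apply le_of_tendsto h3
    filter_upwards with j
    linarith [hdist k j, hδpos (k + j)]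
  have hfnorm : 1 / 2 ≤ ‖f‖ := by
    have h3 := hfF 0
    have h4 : ‖F 0‖ = 1 := haar2 0
    have h5 : ‖F 0‖ ≤ ‖f‖ + ‖f - F 0‖ := by
      have : F 0 = f - (f - F 0) := by abel
      calc ‖F 0‖ = ‖f - (f - F 0)‖ := by rw [← this]
        _ ≤ _ := norm_sub_le _ _
    have h6 : δ 0 = δ0 := rfl
    rw [h4] at h5
    rw [h6] at h3
    linarith
  -- the oscillating functions
  have hkM : ∀ k, lv k ≤ M k := fun k => by have := (H' k).2.2.2.2.1; omega
  have hhn : ∀ k, 1 ≤ ‖h k‖ ∧ ‖h k‖ ≤ 2 := by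
    intro k
    obtain ⟨_, _, _, d4, _⟩ := hHc p h1 h2 (lv k) (ix k) (a k) (M k) (hkM k) (ix_lt k)
    obtain ⟨d5, d6⟩ := d4 1
    rw [norm_one, Real.one_rpow] at d5 d6
    have hq0 : 0 < p.toReal := by linarith
    constructor
    · by_contra hlt
      push Not at hlt
      have := Real.rpow_lt_rpow (norm_nonneg _) hlt hq0
      rw [Real.one_rpow] at this
      exact absurd d5 (not_le.mpr this)
    · apply norm_le_of_rpow hp (by norm_num)
      refine d6.trans ?_
      rw [mul_one]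
      calc (2:ℝ) = 2 ^ (1:ℝ) := by norm_num
        _ ≤ 2 ^ p.toReal := Real.rpow_le_rpow_of_exponent_le (by norm_num) hq1.le
  have hhs : ∀ k, SuppOn (Bx (μ 0)) (h k) := by
    intro k
    obtain ⟨_, _, d3, _, _⟩ := hHc p h1 h2 (lv k) (ix k) (a k) (M k) (hkM k) (ix_lt k)
    refine (d3 1).mono ?_
    intro t ht
    have h6 : μ 0 = 1 := rfl
    rw [h6]
    unfold Bx
    simp only [mem_Ico, pow_one] at ht ⊢
    constructor <;> linarith [ht.1, ht.2]
  have har : ∀ (N : ℕ) (t : ℕ → ℝ),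
      ca * ‖∑ k ∈ Finset.range N, t k • Hr p k‖ ≤ ‖∑ k ∈ Finset.range N, t k • h k‖ ∧
      ‖∑ k ∈ Finset.range N, t k • h k‖ ≤ Ca * ‖∑ k ∈ Finset.range N, t k • Hr p k‖ :=
    arena a M (fun k => (H' k).2.2.1) (fun k => (H' k).2.2.2.2.1)
      (fun k => (H' (k + 1)).2.2.2.1)
  have hhB : KBasic B h := by
    intro c m n' hmn
    have h3 := (har m c).2
    have h4 := (har n' c).1
    have h5 := haar1 c m n' hmn
    calc ‖∑ i ∈ Finset.range m, c i • h i‖ ≤ Ca * ‖∑ k ∈ Finset.range m, c k • Hr p k‖ := h3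
      _ ≤ Ca * ‖∑ k ∈ Finset.range n', c k • Hr p k‖ := mul_le_mul_of_nonneg_left h5 hCa.le
      _ = B * (ca * ‖∑ k ∈ Finset.range n', c k • Hr p k‖) := by
          rw [hB]; field_simp
      _ ≤ B * ‖∑ i ∈ Finset.range n', c i • h i‖ := mul_le_mul_of_nonneg_left h4 hB0.le
  have hhc : ∀ (c : ℕ → ℝ) (N : ℕ), ∀ i < N, |c i| ≤ 2 * B * ‖∑ i ∈ Finset.range N, c i • h i‖ := by
    intro c N i hi
    have e1 : c i • h i = ∑ k ∈ Finset.range (i + 1), c k • h k -
        ∑ k ∈ Finset.range i, c k • h k := by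
      rw [Finset.sum_range_succ]; abel
    have h6 : ‖c i • h i‖ ≤ B * ‖∑ i ∈ Finset.range N, c i • h i‖ +
        B * ‖∑ i ∈ Finset.range N, c i • h i‖ := by
      rw [e1]
      exact (norm_sub_le _ _).trans (add_le_add (hhB c _ _ (by omega)) (hhB c _ _ (by omega)))
    rw [norm_smul, Real.norm_eq_abs] at h6
    have h8 : |c i| * 1 ≤ |c i| * ‖h i‖ :=
      mul_le_mul_of_nonneg_left (hhn i).1 (abs_nonneg _)
    linarith
  -- flattening
  have hdec : ∀ i, ∃ k j, j < n k ∧ i = psum n k + j := psum_dec n hn1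
  choose kk jj hjj hij using hdec
  have hkk : ∀ k, ∀ j < n k, kk (psum n k + j) = k ∧ jj (psum n k + j) = j := by
    intro k j hj
    have := psum_uniq n hj (hjj (psum n k + j)) (hij (psum n k + j))
    exact ⟨this.1.symm, this.2.symm⟩
  set x : ℕ → X p := fun i => r (kk i) (jj i) + κ (kk i) • h (kk i) with hx
  set y : ℕ → X p := fun i => Tr ℝ p (la (kk i) (jj i)) f with hy
  have hxk : ∀ k, ∀ j < n k, x (psum n k + j) = r k j + κ k • h k := by
    intro k j hj
    obtain ⟨e1, e2⟩ := hkk k j hj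
    simp only [hx, e1, e2]
  have hyk : ∀ k, ∀ j < n k, y (psum n k + j) = Tr ℝ p (la k j) f := by
    intro k j hj
    obtain ⟨e1, e2⟩ := hkk k j hj
    simp only [hy, e1, e2]
  have hblock : ∀ k, ∑ j ∈ Finset.range (n k), ‖y (psum n k + j) - x (psum n k + j)‖ ≤
      2 * δ k := by
    intro k
    obtain ⟨c1, c2, c3, c4, c5, c6, c7, c8, c9, c10, c11, c12, c13, c14⟩ := H' k
    have h3 : ∀ j ∈ Finset.range (n k), ‖y (psum n k + j) - x (psum n k + j)‖ ≤
        ‖f - F (k + 1)‖ + ‖Tr ℝ p (la k j) (F (k + 1)) - (r k j + κ k • h k)‖ := by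
      intro j hj
      have hj' := Finset.mem_range.mp hj
      rw [hyk k j hj', hxk k j hj']
      have e1 : Tr ℝ p (la k j) f - (r k j + κ k • h k) =
          Tr ℝ p (la k j) (f - F (k + 1)) +
            (Tr ℝ p (la k j) (F (k + 1)) - (r k j + κ k • h k)) := by
        rw [map_sub]; abel
      rw [e1]
      refine (norm_add_le _ _).trans ?_
      rw [LinearIsometry.norm_map]
    refine (Finset.sum_le_sum h3).trans ?_
    rw [Finset.sum_add_distrib, Finset.sum_const, Finset.card_range, nsmul_eq_mul]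
    have h4 := hfF (k + 1)
    rw [c14] at h4
    have hnk : (1:ℝ) ≤ n k := by exact_mod_cast c1
    have h5 : (n k : ℝ) * ‖f - F (k + 1)‖ ≤ n k * (2 * (δ k / (4 * (n k + 1)))) :=
      mul_le_mul_of_nonneg_left h4 (by positivity)
    have h6 : (n k : ℝ) * (2 * (δ k / (4 * (n k + 1)))) ≤ δ k := by
      have h7 : (n k : ℝ) * (2 * (δ k / (4 * (n k + 1)))) = (2 * n k / (4 * (n k + 1))) * δ k := by
        field_simp
      rw [h7]
      have h8 : (2 * (n k : ℝ) / (4 * (n k + 1))) ≤ 1 := by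
        rw [div_le_one (by positivity)]
        linarith
      calc (2 * (n k : ℝ) / (4 * (n k + 1))) * δ k ≤ 1 * δ k :=
            mul_le_mul_of_nonneg_right h8 (hδpos k).le
        _ = δ k := one_mul _
    linarith
  obtain ⟨gl1, gl2⟩ := glue μ n r κ h x (strictMono_nat_of_lt_succ fun k => (H' k).2.1) hn1 hhs
    (fun k => (H' k).2.2.2.2.2.2.2.2.1) hhn hhB
    (fun k c N hN => by
      have h3 := (H' k).2.2.2.2.2.2.2.2.2.1 c N hN
      refine h3.trans ?_
      apply mul_le_mul_of_nonneg_right (by linarith)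
      positivity)
    (fun k c j hj => by
      have h3 := (H' k).2.2.2.2.2.2.2.2.2.2.1 c j hj
      have h4 : 1 / 2 ≤ ‖F k‖ := by
        have := (S k).hF
        have := (S k).hδ
        linarith
      have h5 : |c j| * (1 / 2) ≤ |c j| * ‖F k‖ := mul_le_mul_of_nonneg_left h4 (abs_nonneg _)
      linarith)
    hxk
  have hθsum : ∀ N : ℕ, K * ∑ i ∈ Finset.range N, ‖y i - x i‖ ≤ 1 / 2 := by
    intro N
    have h3 : ∑ i ∈ Finset.range N, ‖y i - x i‖ ≤ ∑ i ∈ Finset.range (psum n N), ‖y i - x i‖ := by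
      apply Finset.sum_le_sum_of_subset_of_nonneg
      · exact Finset.range_subset_range.mpr (psum_ge n hn1 N)
      · intro i _ _
        positivity
    rw [sum_psum] at h3
    have h4 : ∑ k ∈ Finset.range N, ∑ j ∈ Finset.range (n k),
        ‖y (psum n k + j) - x (psum n k + j)‖ ≤ ∑ k ∈ Finset.range N, 2 * δ k :=
      Finset.sum_le_sum fun k _ => hblock k
    rw [← Finset.mul_sum] at h4
    have h5 := hδsum' N
    calc K * ∑ i ∈ Finset.range N, ‖y i - x i‖ ≤ K * (4 * δ0) := by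
          apply mul_le_mul_of_nonneg_left _ hK.le
          linarith
      _ ≤ 1 / 2 := hδ2
  have hpert := hPert (X p) x y K (fun i => ‖y i - x i‖) hK.le (fun i => le_rfl) hθsum gl2
  have hyB : KBasic (3 * K) y := by
    intro c m n' hmn
    have h3 := (hpert c m).2
    have h4 := (hpert c n').1
    have h5 := gl1 c m n' hmn
    have h6 : K * ‖∑ i ∈ Finset.range n', c i • x i‖ ≤ K * (2 * ‖∑ i ∈ Finset.range n', c i • y i‖) :=
      mul_le_mul_of_nonneg_left (by linarith) hK.le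
    linarith
  have hIsB : IsBasic y := by
    apply hBasic (X p) y (3 * K) _ hyB
    intro i h0
    have h3 : ‖y i‖ = ‖f‖ := LinearIsometry.norm_map _ _
    rw [h0, norm_zero] at h3
    linarith
  refine ⟨f, fun i => la (kk i) (jj i), hIsB, ?_⟩
  -- the copy of L_p
  set g : ℕ → X p := fun k => (κ k * n k)⁻¹ • ∑ j ∈ Finset.range (n k), y (psum n k + j) with hg
  have hgh : ∀ k, ‖g k - h k‖ ≤ 3 * δ k := by
    intro k
    obtain ⟨c1, c2, c3, c4, c5, c6, c7, c8, c9, c10, c11, c12, c13, c14⟩ := H' k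
    have hpos : 0 < κ k * n k := by linarith
    have e1 : g k - h k = (κ k * n k)⁻¹ • (∑ j ∈ Finset.range (n k), r k j +
        ∑ j ∈ Finset.range (n k), (y (psum n k + j) - x (psum n k + j))) := by
      have e2 : ∑ j ∈ Finset.range (n k), x (psum n k + j) =
          ∑ j ∈ Finset.range (n k), r k j + (κ k * n k) • h k := by
        rw [Finset.sum_congr rfl fun j hj => hxk k j (Finset.mem_range.mp hj),
          Finset.sum_add_distrib, Finset.sum_const, Finset.card_range, ← Nat.cast_smul_eq_nsmul ℝ,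
          smul_smul, mul_comm (n k : ℝ)]
      rw [Finset.sum_sub_distrib, e2]
      have e3 : ∑ j ∈ Finset.range (n k), r k j + (∑ j ∈ Finset.range (n k), y (psum n k + j) -
          (∑ j ∈ Finset.range (n k), r k j + (κ k * n k) • h k)) =
          ∑ j ∈ Finset.range (n k), y (psum n k + j) - (κ k * n k) • h k := by abel
      rw [e3, smul_sub, smul_smul, inv_mul_cancel₀ hpos.ne', one_smul]
    rw [e1, norm_smul, norm_inv, Real.norm_eq_abs, abs_of_pos hpos, inv_mul_le_iff₀ hpos]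
    have h3 : ‖∑ j ∈ Finset.range (n k), (y (psum n k + j) - x (psum n k + j))‖ ≤ 2 * δ k :=
      (norm_sum_le _ _).trans (hblock k)
    have h4 : 2 * δ k ≤ 2 * δ k * (κ k * n k) :=
      le_mul_of_one_le_right (by linarith [hδpos k]) c7
    calc ‖∑ j ∈ Finset.range (n k), r k j +
          ∑ j ∈ Finset.range (n k), (y (psum n k + j) - x (psum n k + j))‖
        ≤ δ k * (κ k * n k) + 2 * δ k * (κ k * n k) :=
          (norm_add_le _ _).trans (add_le_add c12 (h3.trans h4))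
      _ = κ k * n k * (3 * δ k) := by ring
  have hpert2 := hPert (X p) h g (2 * B) (fun k => 3 * δ k) (by positivity) hgh
    (fun N => by
      rw [← Finset.mul_sum]
      have h5 := hδsum' N
      calc 2 * B * (3 * ∑ i ∈ Finset.range N, δ i) ≤ 2 * B * (6 * δ0) := by
            apply mul_le_mul_of_nonneg_left _ (by positivity)
            linarith
        _ ≤ 1 / 2 := hδ3) hhc
  obtain ⟨T, hT1, hT2, hT3⟩ := hExt (E p) (X p) e g (ca / 2) (3 / 2 * Ca) (by positivity)
    (by positivity) he1 (fun t N => by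
      have h3 := hpert2 t N
      have h4 := har N t
      rw [he2 t N]
      constructor <;> linarith [h3.1, h3.2, h4.1, h4.2])
  refine ⟨T, ca / 2, by positivity, hT2, ?_⟩
  intro z
  have hsub : Submodule.span ℝ (Set.range g) ≤
      Submodule.span ℝ (Set.range fun i => Tr ℝ p (la (kk i) (jj i)) f) := by
    rw [Submodule.span_le]
    rintro _ ⟨k, rfl⟩
    apply Submodule.smul_mem
    apply Submodule.sum_mem
    intro j _
    exact Submodule.subset_span ⟨_, rfl⟩
  exact Submodule.topologicalClosure_mono hsub (hT3 z)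

end Pool.Agent.W688.TBA
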