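import Pool.Agent.W692.TB.Stms

open scoped BigOperators Topology ENNReal
open Filter Set MeasureTheory H316F

namespace Pool.Agent.W688.TBG

open Pool.Agent.W692.TB

theorem psum_succ (n : ℕ → ℕ) (k : ℕ) : psum n (k + 1) = psum n k + n k := by
  unfold psum
  rw [Finset.sum_range_succ]

theorem psum_ge (n : ℕ → ℕ) (hn : ∀ k, 1 ≤ n k) (k : ℕ) : k ≤ psum n k := by
  induction k with
  | zero => simp
  | succ k ih => rw [psum_succ]; have := hn k; omega

theorem psum_dec (n : ℕ → ℕ) (hn : ∀ k, 1 ≤ n k) (m : ℕ) :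
    ∃ k j, j < n k ∧ m = psum n k + j := by
  induction m with
  | zero => exact ⟨0, 0, hn 0, by simp [psum]⟩
  | succ m ih =>
    obtain ⟨k, j, hj, hm⟩ := ih
    by_cases h : j + 1 < n k
    · exact ⟨k, j + 1, h, by omega⟩
    · refine ⟨k + 1, 0, hn _, ?_⟩
      rw [psum_succ]
      omega

variable {p : ℝ≥0∞} [hp1 : Fact (1 ≤ p)]

/-- the sets -/
def AA (μ : ℕ → ℕ) : ℕ → Set ℝ
  | 0 => Bx (μ 0)
  | (k + 1) => An (μ k) (μ (k + 1))

theorem AA_sub (μ : ℕ → ℕ) (i : ℕ) : AA μ i ⊆ Bx (μ i) := by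
  cases i with
  | zero => exact subset_rfl
  | succ k => exact sdiff_subset

theorem AA_disj {μ : ℕ → ℕ} (hμ : StrictMono μ) {i j : ℕ} (h : i < j) :
    Disjoint (AA μ i) (AA μ j) := by
  obtain ⟨l, rfl⟩ : ∃ l, j = l + 1 := ⟨j - 1, by omega⟩
  have h1 : AA μ i ⊆ Bx (μ l) := (AA_sub μ i).trans (Bx_mono (hμ.monotone (by omega)))
  have h2 : AA μ (l + 1) = Bx (μ (l + 1)) \ Bx (μ l) := rfl
  rw [h2]
  exact disjoint_sdiff_right.mono_left h1

theorem AA_disj' {μ : ℕ → ℕ} (hμ : StrictMono μ) {i j : ℕ} (h : i ≠ j) :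
    Disjoint (AA μ i) (AA μ j) := by
  rcases lt_or_gt_of_ne h with h | h
  · exact AA_disj hμ h
  · exact (AA_disj hμ h).symm

/-- sub-sums of disjointly supported families -/
theorem sub_sum (hp : p ≠ ⊤) {μ : ℕ → ℕ} (hμ : StrictMono μ) (U : ℕ → X p) (s t : Finset ℕ)
    (hst : s ⊆ t) (hU : ∀ i ∈ t, SuppOn (AA μ i) (U i)) : ‖∑ i ∈ s, U i‖ ≤ ‖∑ i ∈ t, U i‖ := by
  apply norm_le_of_rpow hp (norm_nonneg _)
  rw [disj_sum hp s (AA μ) (fun i _ j _ hij => AA_disj' hμ hij) U (fun i hi => hU i (hst hi)),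
    disj_sum hp t (AA μ) (fun i _ j _ hij => AA_disj' hμ hij) U hU]
  exact Finset.sum_le_sum_of_subset_of_nonneg hst (fun i _ _ => by positivity)

section
variable (n : ℕ → ℕ) (r : ℕ → ℕ → X p) (κ : ℕ → ℝ) (c : ℕ → ℝ)

/-- block part -/
noncomputable def RR (k : ℕ) : X p := ∑ j ∈ Finset.range (n k), c (psum n k + j) • r k j

/-- block coefficient -/
noncomputable def ta (k : ℕ) : ℝ := κ k * ∑ j ∈ Finset.range (n k), c (psum n k + j)

end

theorem part_block {n : ℕ → ℕ} {r : ℕ → ℕ → X p} {κ : ℕ → ℝ} {h x : ℕ → X p}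
    (hx : ∀ k, ∀ j < n k, x (psum n k + j) = r k j + κ k • h k) (c : ℕ → ℝ) (k N : ℕ)
    (hN : N ≤ n k) :
    ∑ j ∈ Finset.range N, c (psum n k + j) • x (psum n k + j) =
      ∑ j ∈ Finset.range N, c (psum n k + j) • r k j +
        (κ k * ∑ j ∈ Finset.range N, c (psum n k + j)) • h k := by
  rw [Finset.mul_sum, Finset.sum_smul, ← Finset.sum_add_distrib]
  apply Finset.sum_congr rfl
  intro j hj
  rw [hx k j (lt_of_lt_of_le (Finset.mem_range.mp hj) hN), smul_add, smul_smul, mul_comm]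

theorem full_sum {n : ℕ → ℕ} {r : ℕ → ℕ → X p} {κ : ℕ → ℝ} {h x : ℕ → X p}
    (hx : ∀ k, ∀ j < n k, x (psum n k + j) = r k j + κ k • h k) (c : ℕ → ℝ) (k1 : ℕ) :
    ∑ i ∈ Finset.range (psum n k1), c i • x i =
      ∑ k ∈ Finset.range k1, RR n r c k + ∑ k ∈ Finset.range k1, ta n κ c k • h k := by
  induction k1 with
  | zero => simp [psum]
  | succ k ih =>
    rw [psum_succ, Finset.sum_range_add, ih, part_block hx c k (n k) le_rfl,
      Finset.sum_range_succ, Finset.sum_range_succ]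
    unfold RR ta
    abel

theorem t_glue : S_glue := by
  intro p hp1 hp B C hB hC
  refine ⟨1 + B + 2 * C * (1 + 2 * B), by positivity, ?_⟩
  intro μ n r κ h x hμ hn hsh hsr hh hBas hT hcf hx
  -- the main estimates for full blocks
  have key : ∀ (c : ℕ → ℝ) (k1 k0 : ℕ), k0 < k1 →
      ‖∑ k ∈ Finset.range k0, RR n r c k‖ ≤ ‖∑ i ∈ Finset.range (psum n k1), c i • x i‖ ∧
      ‖∑ k ∈ Finset.range k0, ta n κ c k • h k‖ ≤
        B * ‖∑ i ∈ Finset.range (psum n k1), c i • x i‖ ∧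
      ‖RR n r c k0‖ + |ta n κ c k0| ≤
        (1 + 2 * B) * ‖∑ i ∈ Finset.range (psum n k1), c i • x i‖ := by
    intro c k1 k0 hk
    set Gn : ℝ := ‖∑ i ∈ Finset.range (psum n k1), c i • x i‖ with hG
    rw [full_sum hx] at hG
    let U : ℕ → X p := fun i => match i with
      | 0 => ∑ k ∈ Finset.range k1, ta n κ c k • h k
      | (k + 1) => RR n r c k
    have hU : ∀ i ∈ Finset.range (k1 + 1), SuppOn (AA μ i) (U i) := by
      intro i _
      cases i with
      | zero =>
        exact SuppOn.sum fun k _ => (hsh k).smul _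
      | succ k =>
        exact SuppOn.sum fun j hj => (hsr k j (Finset.mem_range.mp hj)).smul _
    have hsumU : ∑ i ∈ Finset.range (k1 + 1), U i =
        ∑ k ∈ Finset.range k1, RR n r c k + ∑ k ∈ Finset.range k1, ta n κ c k • h k := by
      rw [Finset.sum_range_succ']
    rw [← hsumU] at hG
    have h1 : ‖∑ k ∈ Finset.range k0, RR n r c k‖ ≤ Gn := by
      rw [hG]
      have e : ∑ k ∈ Finset.range k0, RR n r c k = ∑ i ∈ Finset.Ico 1 (k0 + 1), U i := by
        rw [Finset.sum_Ico_eq_sum_range]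
        apply Finset.sum_congr (by simp)
        intro k _
        rw [add_comm]
      rw [e]
      apply sub_sum hp hμ U _ _ _ hU
      intro i hi
      rw [Finset.mem_Ico] at hi
      rw [Finset.mem_range]
      omega
    have h2 : ‖RR n r c k0‖ ≤ Gn := by
      rw [hG]
      have e : RR n r c k0 = ∑ i ∈ {k0 + 1}, U i := by
        rw [Finset.sum_singleton]
      rw [e]
      apply sub_sum hp hμ U _ _ _ hU
      intro i hi
      rw [Finset.mem_singleton] at hi
      rw [Finset.mem_range]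
      omega
    have h3 : ‖∑ k ∈ Finset.range k1, ta n κ c k • h k‖ ≤ Gn := by
      rw [hG]
      have e : ∑ k ∈ Finset.range k1, ta n κ c k • h k = ∑ i ∈ {0}, U i := by
        rw [Finset.sum_singleton]
      rw [e]
      apply sub_sum hp hμ U _ _ _ hU
      intro i hi
      rw [Finset.mem_singleton] at hi
      rw [Finset.mem_range]
      omega
    have h4 : ∀ k ≤ k1, ‖∑ k ∈ Finset.range k, ta n κ c k • h k‖ ≤ B * Gn := by
      intro k hk
      refine (hBas (ta n κ c) k k1 hk).trans ?_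
      exact mul_le_mul_of_nonneg_left h3 hB.le
    have h5 : |ta n κ c k0| ≤ 2 * B * Gn := by
      have e : ta n κ c k0 • h k0 = ∑ k ∈ Finset.range (k0 + 1), ta n κ c k • h k -
          ∑ k ∈ Finset.range k0, ta n κ c k • h k := by
        rw [Finset.sum_range_succ]; abel
      have h6 : ‖ta n κ c k0 • h k0‖ ≤ B * Gn + B * Gn := by
        rw [e]
        exact (norm_sub_le _ _).trans (add_le_add (h4 _ (by omega)) (h4 _ (by omega)))
      rw [norm_smul, Real.norm_eq_abs] at h6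
      have h7 := (hh k0).1
      have h8 : |ta n κ c k0| * 1 ≤ |ta n κ c k0| * ‖h k0‖ :=
        mul_le_mul_of_nonneg_left h7 (abs_nonneg _)
      linarith
    refine ⟨h1, h4 k0 hk.le, ?_⟩
    linarith
  have hG0 : ∀ (c : ℕ → ℝ) (k1 : ℕ), 0 ≤ ‖∑ i ∈ Finset.range (psum n k1), c i • x i‖ :=
    fun c k1 => norm_nonneg _
  have htr : ∀ (c : ℕ → ℝ) (N M : ℕ), N ≤ M →
      ∑ i ∈ Finset.range M, (if i < N then c i else 0) • x i =
        ∑ i ∈ Finset.range N, c i • x i := by
    intro c N M hNM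
    rw [← Finset.sum_range_add_sum_Ico _ hNM]
    have h2 : ∑ i ∈ Finset.Ico N M, (if i < N then c i else 0) • x i = 0 := by
      apply Finset.sum_eq_zero
      intro i hi
      have := Finset.mem_Ico.mp hi
      rw [if_neg (by omega), zero_smul]
    rw [h2, add_zero]
    apply Finset.sum_congr rfl
    intro i hi
    rw [if_pos (Finset.mem_range.mp hi)]
  constructor
  · intro c m N hmN
    obtain ⟨k0, j0, hj0, hm⟩ := psum_dec n hn m
    set k1 := N + k0 + 1 with hk1
    have hNk : N ≤ psum n k1 := by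
      have := psum_ge n hn k1
      omega
    set c' : ℕ → ℝ := fun i => if i < N then c i else 0 with hc'
    obtain ⟨e1, e2, e3⟩ := key c' k1 k0 (by omega)
    have hfull : ∑ i ∈ Finset.range (psum n k1), c' i • x i = ∑ i ∈ Finset.range N, c i • x i :=
      htr c N _ hNk
    rw [hfull] at e1 e2 e3
    have hpart : ∑ i ∈ Finset.range m, c i • x i = ∑ i ∈ Finset.range m, c' i • x i := by
      apply Finset.sum_congr rfl
      intro i hi
      have := Finset.mem_range.mp hi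
      rw [hc']
      simp only
      rw [if_pos (by omega)]
    rw [hpart, hm, Finset.sum_range_add, full_sum hx, part_block hx c' k0 j0 hj0.le]
    have e4 := hT k0 (fun j => c' (psum n k0 + j)) j0 hj0.le
    have e5 : ‖∑ j ∈ Finset.range (n k0), c' (psum n k0 + j) • r k0 j‖ +
        |κ k0 * ∑ j ∈ Finset.range (n k0), c' (psum n k0 + j)| ≤
        (1 + 2 * B) * ‖∑ i ∈ Finset.range N, c i • x i‖ := e3
    have e6 := mul_le_mul_of_nonneg_left e5 hC.le
    have e7 : ‖(κ k0 * ∑ j ∈ Finset.range j0, c' (psum n k0 + j)) • h k0‖ ≤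
        2 * |κ k0 * ∑ j ∈ Finset.range j0, c' (psum n k0 + j)| := by
      rw [norm_smul, Real.norm_eq_abs, mul_comm]
      exact mul_le_mul_of_nonneg_right (hh k0).2 (abs_nonneg _)
    have e8 : 0 ≤ ‖∑ j ∈ Finset.range j0, c' (psum n k0 + j) • r k0 j‖ := norm_nonneg _
    have e9 := norm_add_le (∑ k ∈ Finset.range k0, RR n r c' k +
      ∑ k ∈ Finset.range k0, ta n κ c' k • h k)
      (∑ j ∈ Finset.range j0, c' (psum n k0 + j) • r k0 j +
        (κ k0 * ∑ j ∈ Finset.range j0, c' (psum n k0 + j)) • h k0)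
    have e10 := norm_add_le (∑ k ∈ Finset.range k0, RR n r c' k)
      (∑ k ∈ Finset.range k0, ta n κ c' k • h k)
    have e11 := norm_add_le (∑ j ∈ Finset.range j0, c' (psum n k0 + j) • r k0 j)
        ((κ k0 * ∑ j ∈ Finset.range j0, c' (psum n k0 + j)) • h k0)
    have e12 : (1 + B + 2 * C * (1 + 2 * B)) * ‖∑ i ∈ Finset.range N, c i • x i‖ =
      ‖∑ i ∈ Finset.range N, c i • x i‖ + B * ‖∑ i ∈ Finset.range N, c i • x i‖ +
        2 * (C * ((1 + 2 * B) * ‖∑ i ∈ Finset.range N, c i • x i‖)) := by ring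
    rw [e12]
    linarith
  · intro c N i hi
    obtain ⟨k0, j0, hj0, hm⟩ := psum_dec n hn i
    set k1 := N + k0 + 1 with hk1
    have hNk : N ≤ psum n k1 := by
      have := psum_ge n hn k1
      omega
    set c' : ℕ → ℝ := fun i => if i < N then c i else 0 with hc'
    obtain ⟨e1, e2, e3⟩ := key c' k1 k0 (by omega)
    have hfull : ∑ i ∈ Finset.range (psum n k1), c' i • x i = ∑ i ∈ Finset.range N, c i • x i :=
      htr c N _ hNk
    rw [hfull] at e3
    have e4 := hcf k0 (fun j => c' (psum n k0 + j)) j0 hj0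
    have e5 : ‖∑ j ∈ Finset.range (n k0), c' (psum n k0 + j) • r k0 j‖ +
        |κ k0 * ∑ j ∈ Finset.range (n k0), c' (psum n k0 + j)| ≤
        (1 + 2 * B) * ‖∑ i ∈ Finset.range N, c i • x i‖ := e3
    have e6 := mul_le_mul_of_nonneg_left e5 hC.le
    have e7 : c' (psum n k0 + j0) = c i := by
      rw [← hm, hc']
      simp only
      rw [if_pos hi]
    rw [e7] at e4
    have e8 : 0 ≤ ‖∑ i ∈ Finset.range N, c i • x i‖ := norm_nonneg _
    have e9 : 0 ≤ C * ((1 + 2 * B) * ‖∑ i ∈ Finset.range N, c i • x i‖) := by positivity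
    have e10 : 0 ≤ B * ‖∑ i ∈ Finset.range N, c i • x i‖ := by positivity
    have e12 : (1 + B + 2 * C * (1 + 2 * B)) * ‖∑ i ∈ Finset.range N, c i • x i‖ =
      ‖∑ i ∈ Finset.range N, c i • x i‖ + B * ‖∑ i ∈ Finset.range N, c i • x i‖ +
        2 * (C * ((1 + 2 * B) * ‖∑ i ∈ Finset.range N, c i • x i‖)) := by ring
    rw [e12]
    linarith

end Pool.Agent.W688.TBG
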