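import Pool.Agent.W692.TB.Stms

open scoped BigOperators Topology ENNReal
open Filter Set MeasureTheory H316F

namespace Pool.Agent.W688.TBH

open Pool.Agent.W692.TB

variable {p : ℝ≥0∞} [hp1 : Fact (1 ≤ p)]

/-- constant on a cell -/
def Cst (l : ℕ) (i : ℤ) (x : X p) : Prop := ∃ b : ℝ, ∀ᵐ t, t ∈ cell l i → x t = b

theorem Cst.add {l : ℕ} {i : ℤ} {x y : X p} (hx : Cst l i x) (hy : Cst l i y) :
    Cst l i (x + y) := by
  obtain ⟨b, hb⟩ := hx
  obtain ⟨c, hc⟩ := hy
  refine ⟨b + c, ?_⟩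
  filter_upwards [hb, hc, Lp.coeFn_add x y] with t h1 h2 h3 ht
  rw [h3, Pi.add_apply, h1 ht, h2 ht]

theorem Cst.smul {l : ℕ} {i : ℤ} {x : X p} (hx : Cst l i x) (a : ℝ) : Cst l i (a • x) := by
  obtain ⟨b, hb⟩ := hx
  refine ⟨a * b, ?_⟩
  filter_upwards [hb, Lp.coeFn_smul a x] with t h1 h3 ht
  rw [h3, Pi.smul_apply, h1 ht, smul_eq_mul]

theorem Cst.zero {l : ℕ} {i : ℤ} : Cst l i (0 : X p) := by
  refine ⟨0, ?_⟩
  filter_upwards [Lp.coeFn_zero ℝ p (volume : Measure ℝ)] with t h1 _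
  rw [h1]; rfl

theorem Cst.sum {ι : Type*} {l : ℕ} {i : ℤ} (s : Finset ι) (x : ι → X p)
    (hx : ∀ j ∈ s, Cst l i (x j)) : Cst l i (∑ j ∈ s, x j) := by
  classical
  induction s using Finset.induction_on with
  | empty => simpa using Cst.zero
  | insert a s ha ih =>
    rw [Finset.sum_insert ha]
    exact (hx a (Finset.mem_insert_self _ _)).add
      (ih fun j hj => hx j (Finset.mem_insert_of_mem hj))

theorem cst_ind (l d m : ℕ) (hd : m + d = l) (i j : ℤ) : Cst l i (ind p m j) := by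
  induction d generalizing m j with
  | zero =>
    have hm : m = l := by omega
    subst hm
    by_cases hij : i = j
    · subst hij
      refine ⟨1, ?_⟩
      filter_upwards [ind_coe (p := p) m i] with t ht ht2
      rw [ht, indicator_of_mem ht2]
    · refine ⟨0, ?_⟩
      filter_upwards [ind_coe (p := p) m j] with t ht ht2
      rw [ht, indicator_of_notMem]
      exact fun h => Set.disjoint_left.1 (cell_disj hij) ht2 h
  | succ d ih =>
    rw [ind_split]
    exact (ih (m + 1) (by omega) _).add (ih (m + 1) (by omega) _)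

theorem ix_lt (k : ℕ) : ix k < 2 ^ lv k := by
  unfold ix lv
  rcases Nat.eq_zero_or_pos k with h | h
  · subst h; simp
  · have h1 := Nat.lt_pow_succ_log_self (b := 2) (by norm_num) k
    rw [pow_succ] at h1
    omega

theorem lvix (n j : ℕ) (hj : j < 2 ^ n) : lv (2 ^ n + j) = n ∧ ix (2 ^ n + j) = j := by
  have h1 : lv (2 ^ n + j) = n := by
    unfold lv
    apply Nat.log_eq_of_pow_le_of_lt_pow
    · omega
    · rw [pow_succ]; omega
  refine ⟨h1, ?_⟩
  unfold ix
  rw [h1]
  omega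

theorem k_eq {k : ℕ} (hk : 1 ≤ k) : k = 2 ^ lv k + ix k := by
  unfold ix lv
  have := Nat.pow_log_le_self 2 (by omega : k ≠ 0)
  omega

theorem Hr_zero : Hr p 0 = ind p 0 0 := by unfold Hr; simp

theorem Hr_pos {k : ℕ} (hk : 1 ≤ k) : Hr p k = (2 : ℝ) ^ ((lv k : ℝ) / p.toReal) •
      (ind p (lv k + 1) (2 * (ix k : ℤ)) - ind p (lv k + 1) (2 * (ix k : ℤ) + 1)) := by
  unfold Hr; rw [if_neg (by omega)]

theorem cst_disj {l : ℕ} {i : ℤ} {x : X p} {A : Set ℝ} (hx : SuppOn A x)
    (hA : Disjoint A (cell l i)) : Cst l i x := by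
  refine ⟨0, ?_⟩
  filter_upwards [hx] with t h1 ht
  exact h1 fun h => Set.disjoint_left.1 hA h ht

/-- the previous Haar functions are constant on the cell of the next one -/
theorem cst_Hr {k K : ℕ} (h : k < K) : Cst (lv K) (ix K) (Hr p k) := by
  have hK : 1 ≤ K := by omega
  rcases Nat.eq_zero_or_pos k with h0 | h0
  · subst h0
    rw [Hr_zero]
    exact cst_ind _ (lv K) 0 (by omega) _ _
  · have e1 := k_eq h0
    have e2 := k_eq hK
    have i1 := ix_lt k
    have i2 := ix_lt K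
    have hlv : lv k ≤ lv K := Nat.log_mono_right h.le
    rw [Hr_pos h0]
    have hsub : ∀ x y : X p, x - y = x + (-1 : ℝ) • y := by
      intro x y
      rw [neg_one_smul, sub_eq_add_neg]
    rcases hlv.eq_or_lt with heq | hlt
    · -- same level, different cells
      have hne : ix k ≠ ix K := by
        intro h3
        rw [← heq, ← h3] at e2
        omega
      apply Cst.smul
      have hd : Disjoint (cell (lv k) (ix k)) (cell (lv K) (ix K)) := by
        rw [heq]
        exact cell_disj (by exact_mod_cast hne)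
      have hsplit := cell_split (lv k) (ix k)
      rw [hsub]
      apply Cst.add
      · exact cst_disj (ind_supp _ _) (hd.mono_left (by rw [hsplit]; exact subset_union_left))
      · apply Cst.smul
        exact cst_disj (ind_supp _ _) (hd.mono_left (by rw [hsplit]; exact subset_union_right))
    · apply Cst.smul
      rw [hsub]
      apply Cst.add
      · exact cst_ind _ (lv K - (lv k + 1)) _ (by omega) _ _
      · apply Cst.smul
        exact cst_ind _ (lv K - (lv k + 1)) _ (by omega) _ _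

/-- norm of a three-part decomposition -/
theorem n3 (hp : p ≠ ⊤) (l : ℕ) (i : ℤ) (R : X p) (hR : SuppOn (cell l i)ᶜ R) (α β : ℝ) :
    ‖R + α • ind p (l + 1) (2 * i) + β • ind p (l + 1) (2 * i + 1)‖ ^ p.toReal =
      ‖R‖ ^ p.toReal + (|α| ^ p.toReal + |β| ^ p.toReal) * (2 ^ (l + 1))⁻¹ := by
  have hsplit := cell_split l i
  have hc : Disjoint (cell (l + 1) (2 * i)) (cell (l + 1) (2 * i + 1)) := cell_disj (by omega)
  let U : Fin 3 → X p := ![R, α • ind p (l + 1) (2 * i), β • ind p (l + 1) (2 * i + 1)]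
  let A : Fin 3 → Set ℝ := ![(cell l i)ᶜ, cell (l + 1) (2 * i), cell (l + 1) (2 * i + 1)]
  have h1 : Disjoint (cell l i)ᶜ (cell (l + 1) (2 * i)) := by
    rw [hsplit]
    exact disjoint_compl_left.mono_right subset_union_left
  have h2 : Disjoint (cell l i)ᶜ (cell (l + 1) (2 * i + 1)) := by
    rw [hsplit]
    exact disjoint_compl_left.mono_right subset_union_right
  have key := disj_sum hp Finset.univ A (by
    intro a _ b _ hab
    fin_cases a <;> fin_cases b <;> simp [A] at hab ⊢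
    · exact h1
    · exact h2
    · exact h1.symm
    · exact hc
    · exact h2.symm
    · exact hc.symm) U (by
    intro a _
    fin_cases a
    · exact hR
    · exact (ind_supp _ _).smul _
    · exact (ind_supp _ _).smul _)
  rw [Fin.sum_univ_three, Fin.sum_univ_three] at key
  simp only [U, Matrix.cons_val_zero, Matrix.cons_val_one, Matrix.cons_val_two, Matrix.head_cons,
    Matrix.tail_cons, Matrix.cons_val] at key
  rw [key, norm_smul, norm_smul, Real.norm_eq_abs, Real.norm_eq_abs,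
    Real.mul_rpow (abs_nonneg _) (norm_nonneg _), Real.mul_rpow (abs_nonneg _) (norm_nonneg _),
    ind_norm hp, ind_norm hp]
  ring

theorem incr (hp : p ≠ ⊤) (h1 : 1 < p) (l : ℕ) (i : ℤ) (x : X p) (hx : Cst l i x) (τ : ℝ) :
    ‖x‖ ≤ ‖x + τ • (ind p (l + 1) (2 * i) - ind p (l + 1) (2 * i + 1))‖ := by
  have hq := q_ge (p := p) hp
  obtain ⟨b, hb⟩ := hx
  set R : X p := x - b • ind p l i with hR
  have hRs : SuppOn (cell l i)ᶜ R := by
    filter_upwards [hb, Lp.coeFn_sub x (b • ind p l i), Lp.coeFn_smul b (ind p l i),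
      ind_coe (p := p) l i] with t e1 e2 e3 e4 ht
    rw [mem_compl_iff, not_not] at ht
    rw [hR, e2, Pi.sub_apply, e3, Pi.smul_apply, e4, indicator_of_mem ht, e1 ht]
    simp
  have ex : x = R + b • ind p (l + 1) (2 * i) + b • ind p (l + 1) (2 * i + 1) := by
    rw [add_assoc, ← smul_add, ← ind_split, hR]
    abel
  have ey : x + τ • (ind p (l + 1) (2 * i) - ind p (l + 1) (2 * i + 1)) =
      R + (b + τ) • ind p (l + 1) (2 * i) + (b - τ) • ind p (l + 1) (2 * i + 1) := by
    conv_lhs => rw [ex]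
    rw [smul_sub, add_smul, sub_smul]
    abel
  apply norm_le_of_rpow hp (norm_nonneg _)
  rw [ey, n3 hp l i R hRs]
  conv_lhs => rw [ex]
  rw [n3 hp l i R hRs]
  have hconv : 2 * |b| ^ p.toReal ≤ |b + τ| ^ p.toReal + |b - τ| ^ p.toReal := by
    have h3 := (convexOn_rpow hq).2 (mem_Ici.mpr (abs_nonneg (b + τ)))
      (mem_Ici.mpr (abs_nonneg (b - τ))) (by norm_num : (0:ℝ) ≤ 1 / 2) (by norm_num : (0:ℝ) ≤ 1 / 2)
      (by norm_num)
    simp only [smul_eq_mul] at h3
    have h4 : |b| ≤ 1 / 2 * |b + τ| + 1 / 2 * |b - τ| := by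
      have := abs_add_le (b + τ) (b - τ)
      have e : b + τ + (b - τ) = 2 * b := by ring
      rw [e, abs_mul, abs_two] at this
      linarith
    have h5 := Real.rpow_le_rpow (abs_nonneg _) h4 (by linarith : 0 ≤ p.toReal)
    linarith
  have hpos : (0:ℝ) < (2 ^ (l + 1))⁻¹ := by positivity
  nlinarith

theorem mono (hp : p ≠ ⊤) (h1 : 1 < p) (t : ℕ → ℝ) (K L : ℕ) (h : K ≤ L) :
    ‖∑ k ∈ Finset.range K, t k • Hr p k‖ ≤ ‖∑ k ∈ Finset.range L, t k • Hr p k‖ := by
  induction L, h using Nat.le_induction with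
  | base => exact le_rfl
  | succ L _ ih =>
    refine ih.trans ?_
    rw [Finset.sum_range_succ]
    rcases Nat.eq_zero_or_pos L with h0 | h0
    · subst h0
      simp
    · rw [Hr_pos h0, smul_smul]
      apply incr hp h1
      apply Cst.sum
      intro k hk
      exact (cst_Hr (Finset.mem_range.mp hk)).smul _

theorem norm_Hr (hp : p ≠ ⊤) (h1 : 1 < p) (k : ℕ) : ‖Hr p k‖ = 1 := by
  have hq := q_ge (p := p) hp
  have hq0 : 0 < p.toReal := by linarith
  have key : ‖Hr p k‖ ^ p.toReal = 1 := by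
    rcases Nat.eq_zero_or_pos k with h0 | h0
    · subst h0
      rw [Hr_zero, ind_norm hp]
      simp
    · rw [Hr_pos h0]
      set c : ℝ := (2 : ℝ) ^ ((lv k : ℝ) / p.toReal) with hc
      have e : c • (ind p (lv k + 1) (2 * (ix k : ℤ)) - ind p (lv k + 1) (2 * (ix k : ℤ) + 1)) =
          0 + c • ind p (lv k + 1) (2 * (ix k : ℤ)) + (-c) • ind p (lv k + 1) (2 * (ix k : ℤ) + 1) := by
        rw [smul_sub, neg_smul]; abel
      have hz : SuppOn (cell (lv k) (ix k))ᶜ (0 : X p) := by
        filter_upwards [Lp.coeFn_zero ℝ p (volume : Measure ℝ)] with t h1 _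
        rw [h1]; rfl
      rw [e, n3 hp (lv k) (ix k) 0 hz, norm_zero, Real.zero_rpow hq0.ne', abs_neg, zero_add]
      have hc0 : 0 < c := by positivity
      rw [abs_of_pos hc0, hc, ← Real.rpow_mul (by norm_num), div_mul_cancel₀ _ hq0.ne',
        Real.rpow_natCast]
      have : (2:ℝ) ^ lv k ≠ 0 := by positivity
      rw [pow_succ]
      field_simp
      norm_num
  have h3 : ‖Hr p k‖ ^ p.toReal = 1 ^ p.toReal := by rw [key, Real.one_rpow]
  exact (Real.rpow_left_inj (norm_nonneg _) (by norm_num) hq0.ne').mp h3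

/-- the restriction -/
noncomputable def rho (p : ℝ≥0∞) [Fact (1 ≤ p)] : X p →L[ℝ] E p :=
  LpToLpRestrictCLM ℝ ℝ ℝ (volume : Measure ℝ) p (Icc (0:ℝ) 1)

theorem rho_coe (x : X p) : rho p x =ᵐ[volume.restrict (Icc (0:ℝ) 1)] x :=
  LpToLpRestrictCLM_coeFn ℝ (Icc (0:ℝ) 1) x

theorem rho_norm (x : X p) (hx : SuppOn (Icc 0 1) x) : ‖rho p x‖ = ‖x‖ := by
  rw [Lp.norm_def, Lp.norm_def, eLpNorm_congr_ae (rho_coe x),
    ← eLpNorm_indicator_eq_eLpNorm_restrict measurableSet_Icc]
  congr 1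
  apply eLpNorm_congr_ae
  filter_upwards [hx] with t ht
  by_cases h : t ∈ Icc (0:ℝ) 1
  · rw [indicator_of_mem h]
  · rw [indicator_of_notMem h, ht h]

theorem rho_surj (y : E p) : ∃ x : X p, rho p x = y := by
  have hm : MemLp ((Icc (0:ℝ) 1).indicator y) p volume :=
    (memLp_indicator_iff_restrict measurableSet_Icc).mpr (Lp.memLp y)
  refine ⟨hm.toLp, ?_⟩
  apply Lp.ext
  refine (rho_coe _).trans ?_
  have h1 := ae_restrict_of_ae (s := Icc (0:ℝ) 1) hm.coeFn_toLp
  filter_upwards [h1, ae_restrict_mem measurableSet_Icc] with t e1 e2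
  rw [e1, indicator_of_mem e2]

theorem cell_unit {n : ℕ} {j : ℤ} (h0 : 0 ≤ j) (h1 : j < 2 ^ n) : cell n j ⊆ Icc 0 1 := by
  intro t ht
  have h2 : (0 : ℝ) < 2 ^ n := by positivity
  rw [cell, mem_Ico, div_le_iff₀ h2, lt_div_iff₀ h2] at ht
  have h3 : (0:ℝ) ≤ j := by exact_mod_cast h0
  have h4 : (j:ℝ) + 1 ≤ 2 ^ n := by exact_mod_cast (by omega : j + 1 ≤ 2 ^ n)
  constructor
  · by_contra hlt
    push Not at hlt
    nlinarith
  · by_contra hlt
    push Not at hlt
    nlinarith

theorem rho_out {n : ℕ} {j : ℤ} (h : ¬ (0 ≤ j ∧ j < 2 ^ n)) : rho p (ind p n j) = 0 := by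
  apply Lp.ext
  refine (rho_coe _).trans ?_
  have h1 := ae_restrict_of_ae (s := Icc (0:ℝ) 1) (ind_coe (p := p) n j)
  have h3 : ∀ᵐ t : ℝ ∂(volume.restrict (Icc (0:ℝ) 1)), t ≠ 1 :=
    ae_restrict_of_ae (by simp [ae_iff])
  filter_upwards [h1, ae_restrict_mem measurableSet_Icc,
    Lp.coeFn_zero ℝ p (volume.restrict (Icc (0:ℝ) 1)), h3] with t e1 e2 e3 e4
  rw [e1, e3, indicator_of_notMem]
  · rfl
  · intro ht
    have h2 : (0 : ℝ) < 2 ^ n := by positivity
    rw [cell, mem_Ico, div_le_iff₀ h2, lt_div_iff₀ h2] at ht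
    have e5 : t < 1 := lt_of_le_of_ne e2.2 e4
    apply h
    constructor
    · have : (0:ℝ) < (j:ℝ) + 1 := lt_of_le_of_lt (mul_nonneg e2.1 h2.le) ht.2
      have : (0:ℤ) < j + 1 := by exact_mod_cast this
      omega
    · have : (j:ℝ) < 2 ^ n := by nlinarith [ht.1]
      exact_mod_cast this

theorem ind_span (n : ℕ) (j : ℕ) (hj : j < 2 ^ n) :
    ind p n (j:ℤ) ∈ Submodule.span ℝ (Set.range (Hr p)) := by
  induction n generalizing j with
  | zero =>
    have : j = 0 := by simpa using hj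
    subst this
    have h : ind p 0 ((0:ℕ):ℤ) = Hr p 0 := by rw [Hr_zero]; rfl
    rw [h]
    exact Submodule.subset_span ⟨0, rfl⟩
  | succ n ih =>
    obtain ⟨i, hi⟩ : ∃ i, i = j / 2 := ⟨_, rfl⟩
    have hi2 : i < 2 ^ n := by rw [pow_succ] at hj; omega
    have hind := ih i hi2
    obtain ⟨e1, e2⟩ := lvix n i hi2
    have hH : Hr p (2 ^ n + i) ∈ Submodule.span ℝ (Set.range (Hr p)) :=
      Submodule.subset_span ⟨_, rfl⟩
    have hpos : 1 ≤ 2 ^ n + i := by
      have h9 : 0 < 2 ^ n := by positivity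
      omega
    set c : ℝ := (2 : ℝ) ^ ((n : ℝ) / p.toReal) with hc
    have hc0 : c ≠ 0 := by positivity
    have hdiff : ind p (n + 1) (2 * (i:ℤ)) - ind p (n + 1) (2 * (i:ℤ) + 1) ∈
        Submodule.span ℝ (Set.range (Hr p)) := by
      have h3 := Submodule.smul_mem _ c⁻¹ hH
      rw [Hr_pos hpos, e1, e2, smul_smul, inv_mul_cancel₀ hc0, one_smul] at h3
      exact h3
    have hs := ind_split (p := p) n i
    rcases Nat.even_or_odd' j with ⟨m, hm | hm⟩
    · have hmi : m = i := by omega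
      subst hmi
      have e3 : ind p (n + 1) (j:ℤ) = (1 / 2 : ℝ) • (ind p n (m:ℤ) +
          (ind p (n + 1) (2 * (m:ℤ)) - ind p (n + 1) (2 * (m:ℤ) + 1))) := by
        rw [hs, hm]
        push_cast
        rw [show ind p (n + 1) (2 * (m:ℤ)) + ind p (n + 1) (2 * (m:ℤ) + 1) +
          (ind p (n + 1) (2 * (m:ℤ)) - ind p (n + 1) (2 * (m:ℤ) + 1)) =
          (2:ℝ) • ind p (n + 1) (2 * (m:ℤ)) from by rw [two_smul]; abel, smul_smul]
        norm_num
      rw [e3]
      exact Submodule.smul_mem _ _ (Submodule.add_mem _ hind hdiff)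
    · have hmi : m = i := by omega
      subst hmi
      have e3 : ind p (n + 1) (j:ℤ) = (1 / 2 : ℝ) • (ind p n (m:ℤ) -
          (ind p (n + 1) (2 * (m:ℤ)) - ind p (n + 1) (2 * (m:ℤ) + 1))) := by
        rw [hs, hm]
        push_cast
        rw [show ind p (n + 1) (2 * (m:ℤ)) + ind p (n + 1) (2 * (m:ℤ) + 1) -
          (ind p (n + 1) (2 * (m:ℤ)) - ind p (n + 1) (2 * (m:ℤ) + 1)) =
          (2:ℝ) • ind p (n + 1) (2 * (m:ℤ) + 1) from by rw [two_smul]; abel, smul_smul]
        norm_num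
      rw [e3]
      exact Submodule.smul_mem _ _ (Submodule.sub_mem _ hind hdiff)

theorem Hr_supp (k : ℕ) : SuppOn (Icc 0 1) (Hr p k) := by
  rcases Nat.eq_zero_or_pos k with h0 | h0
  · subst h0
    rw [Hr_zero]
    exact (ind_supp 0 0).mono (cell_unit (by norm_num) (by norm_num))
  · rw [Hr_pos h0]
    have hi := ix_lt k
    have hz : (ix k : ℤ) < 2 ^ lv k := by exact_mod_cast hi
    apply SuppOn.smul
    have e : ind p (lv k + 1) (2 * (ix k : ℤ)) - ind p (lv k + 1) (2 * (ix k : ℤ) + 1) =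
        ∑ j : Bool, (if j then ind p (lv k + 1) (2 * (ix k : ℤ)) else
          (-1 : ℝ) • ind p (lv k + 1) (2 * (ix k : ℤ) + 1)) := by
      simp [sub_eq_add_neg]
    rw [e]
    apply SuppOn.sum
    intro j _
    cases j
    · simp only [Bool.false_eq_true, if_false]
      exact ((ind_supp _ _).mono (cell_unit (by positivity) (by rw [pow_succ]; omega))).smul _
    · simp only [if_true]
      exact (ind_supp _ _).mono (cell_unit (by positivity) (by rw [pow_succ]; omega))

theorem t_haar : S_haar := by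
  intro p hp1 h1 hp
  refine ⟨fun t K L h => mono hp h1 t K L h, norm_Hr hp h1, fun k => rho p (Hr p k), ?_, ?_⟩
  · rw [Submodule.eq_top_iff']
    intro y
    obtain ⟨z, rfl⟩ := rho_surj y
    have h2 : Tendsto (fun n => rho p (Sx p n z)) atTop (𝓝 (rho p z)) :=
      ((rho p).continuous.tendsto z).comp (Sx_tendsto hp z)
    rw [← SetLike.mem_coe, Submodule.topologicalClosure_coe]
    apply mem_closure_of_tendsto h2
    filter_upwards with n
    have hmap : ∀ v ∈ Submodule.span ℝ (Set.range (Hr p)),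
        rho p v ∈ Submodule.span ℝ (Set.range fun k => rho p (Hr p k)) := by
      intro v hv
      have h3 : Submodule.span ℝ (Set.range (Hr p)) ≤
          (Submodule.span ℝ (Set.range fun k => rho p (Hr p k))).comap (rho p).toLinearMap := by
        rw [Submodule.span_le]
        rintro _ ⟨k, rfl⟩
        exact Submodule.subset_span ⟨k, rfl⟩
      exact h3 hv
    rw [Sx, Ex_apply, map_sum]
    apply Submodule.sum_mem
    intro j _
    rw [map_smul]
    apply Submodule.smul_mem
    by_cases h : 0 ≤ j ∧ j < 2 ^ n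
    · obtain ⟨m, rfl⟩ := Int.eq_ofNat_of_zero_le h.1
      apply hmap
      apply ind_span
      exact_mod_cast h.2
    · rw [rho_out h]
      exact Submodule.zero_mem _
  · intro t K
    have e : ∑ k ∈ Finset.range K, t k • rho p (Hr p k) =
        rho p (∑ k ∈ Finset.range K, t k • Hr p k) := by
      rw [map_sum]
      apply Finset.sum_congr rfl
      intro k _
      rw [map_smul]
    rw [e]
    apply rho_norm
    apply SuppOn.sum
    intro k _
    exact (Hr_supp k).smul _

end Pool.Agent.W688.TBH
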