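import Pool.Agent.W692.TB.Stms
import Pool.Agent.Helper576.MB

open scoped BigOperators Topology
open Filter Finset

namespace Pool.Agent.W688.TBM

/-- the weights `G` -/
noncomputable def G (γ : ℝ) (m : ℕ) : ℕ → ℝ
  | 0 => 1
  | (i + 1) => G γ m i * (1 - γ / (m + i + 1))

/-- the differences of `G` -/
noncomputable def f (γ : ℝ) (m : ℕ) (j : ℕ) : ℝ := γ * G γ m j / (m + j + 1)

/-- the renewal sequence -/
noncomputable def u (γ : ℝ) (m : ℕ) : ℕ → ℝ
  | 0 => 1
  | (N + 1) => ∑ k : Fin (N + 1), u γ m k.1 * f γ m (N - k.1)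
decreasing_by exact k.2

theorem u_succ (γ : ℝ) (m N : ℕ) :
    u γ m (N + 1) = ∑ k ∈ range (N + 1), u γ m k * f γ m (N - k) := by
  rw [u, Finset.sum_range]

theorem u_zero (γ : ℝ) (m : ℕ) : u γ m 0 = 1 := by rw [u]

section
variable {γ : ℝ} {m : ℕ}

theorem G_zero : G γ m 0 = 1 := rfl

theorem G_succ (i : ℕ) : G γ m (i + 1) = G γ m i * (1 - γ / (m + i + 1)) := rfl

theorem r_pos (h0 : 0 < γ) (h1 : γ < 1) (i : ℕ) : 0 < 1 - γ / ((m : ℝ) + i + 1) := by
  have hm : (0:ℝ) ≤ m := Nat.cast_nonneg m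
  have hi : (0:ℝ) ≤ i := Nat.cast_nonneg i
  have : γ / ((m : ℝ) + i + 1) < 1 := by
    rw [div_lt_one (by positivity)]
    linarith
  linarith

theorem G_pos (h0 : 0 < γ) (h1 : γ < 1) (i : ℕ) : 0 < G γ m i := by
  induction i with
  | zero => simp [G]
  | succ i ih => rw [G_succ]; exact mul_pos ih (r_pos h0 h1 i)

theorem G_succ' (i : ℕ) : G γ m (i + 1) = G γ m i - f γ m i := by
  rw [G_succ, f]; ring

theorem f_nonneg (h0 : 0 < γ) (h1 : γ < 1) (i : ℕ) : 0 ≤ f γ m i := by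
  have := G_pos (m := m) h0 h1 i
  unfold f
  positivity

theorem G_anti (h0 : 0 < γ) (h1 : γ < 1) : Antitone (G γ m) := by
  apply antitone_nat_of_succ_le
  intro i
  rw [G_succ']
  linarith [f_nonneg (m := m) h0 h1 i]

theorem f_anti (h0 : 0 < γ) (h1 : γ < 1) : Antitone (f γ m) := by
  intro i j hij
  unfold f
  have h2 : G γ m j ≤ G γ m i := G_anti h0 h1 hij
  have h3 : (i : ℝ) ≤ j := by exact_mod_cast hij
  have hp := G_pos (m := m) h0 h1 i
  have hp' := G_pos (m := m) h0 h1 j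
  apply div_le_div₀ (by positivity) (mul_le_mul_of_nonneg_left h2 h0.le) (by positivity)
  linarith

theorem G_le_one (h0 : 0 < γ) (h1 : γ < 1) (i : ℕ) : G γ m i ≤ 1 := by
  have := G_anti (m := m) h0 h1 (Nat.zero_le i)
  simpa [G_zero] using this

theorem u_nonneg (h0 : 0 < γ) (h1 : γ < 1) (N : ℕ) : 0 ≤ u γ m N := by
  induction N using Nat.strong_induction_on with
  | _ N ih =>
    cases N with
    | zero => rw [u_zero]; norm_num
    | succ N =>
      rw [u_succ]
      apply sum_nonneg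
      intro k hk
      exact mul_nonneg (ih k (mem_range.mp hk)) (f_nonneg h0 h1 _)

theorem sum_uG (N : ℕ) : ∑ k ∈ range (N + 1), u γ m k * G γ m (N - k) = 1 := by
  induction N with
  | zero => simp [u_zero, G_zero]
  | succ N ih =>
    rw [sum_range_succ, Nat.sub_self, G_zero, mul_one, u_succ, ← sum_add_distrib, ← ih]
    apply sum_congr rfl
    intro k hk
    have hk' : k ≤ N := by have := mem_range.mp hk; omega
    have : N + 1 - k = (N - k) + 1 := by omega
    rw [this, G_succ']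
    ring

/-- `e k = u k - u (k+1)` convolved with `G` -/
theorem sum_eG (N : ℕ) :
    ∑ k ∈ range (N + 1), (u γ m k - u γ m (k + 1)) * G γ m (N - k) = G γ m (N + 1) := by
  have h1 := sum_uG (γ := γ) (m := m) N
  have h2 := sum_uG (γ := γ) (m := m) (N + 1)
  rw [sum_range_succ'] at h2
  simp only [u_zero, one_mul, Nat.sub_zero] at h2
  have h3 : ∀ k ∈ range (N + 1), u γ m (k + 1) * G γ m (N + 1 - (k + 1)) =
      u γ m (k + 1) * G γ m (N - k) := by
    intro k _
    rw [Nat.add_sub_add_right]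
  rw [sum_congr rfl h3] at h2
  simp only [sub_mul, sum_sub_distrib]
  linarith

theorem e_nonneg (h0 : 0 < γ) (h1 : γ < 1) (N : ℕ) : 0 ≤ u γ m N - u γ m (N + 1) := by
  induction N using Nat.strong_induction_on with
  | _ N ih =>
    have hN := sum_eG (γ := γ) (m := m) N
    rw [sum_range_succ, Nat.sub_self, G_zero, mul_one] at hN
    cases N with
    | zero =>
      simp only [range_zero, sum_empty, zero_add] at hN ⊢
      rw [hN]
      exact (G_pos h0 h1 _).le
    | succ N =>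
      have hN' := sum_eG (γ := γ) (m := m) N
      have hG : G γ m (N + 1 + 1) = G γ m (N + 1) * (1 - γ / (m + (N + 1 : ℕ) + 1)) := G_succ _
      rw [← hN', sum_mul] at hG
      have h4 : ∑ k ∈ range (N + 1), (u γ m k - u γ m (k + 1)) * G γ m (N + 1 - k) ≤
          ∑ k ∈ range (N + 1), (u γ m k - u γ m (k + 1)) * G γ m (N - k) *
            (1 - γ / (m + (N + 1 : ℕ) + 1)) := by
        apply sum_le_sum
        intro k hk
        have hk' : k ≤ N := by have := mem_range.mp hk; omega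
        have e1 : N + 1 - k = (N - k) + 1 := by omega
        have he := ih k (by omega)
        rw [e1, G_succ, mul_assoc]
        apply mul_le_mul_of_nonneg_left _ he
        apply mul_le_mul_of_nonneg_left _ (G_pos h0 h1 _).le
        have h5 : ((N - k : ℕ) : ℝ) ≤ ((N + 1 : ℕ) : ℝ) := by exact_mod_cast (by omega)
        have h6 : γ / (m + (N + 1 : ℕ) + 1) ≤ γ / (m + (N - k : ℕ) + 1) := by
          apply div_le_div_of_nonneg_left h0.le (by positivity)
          linarith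
        linarith
      linarith

theorem u_anti (h0 : 0 < γ) (h1 : γ < 1) : Antitone (u γ m) := by
  apply antitone_nat_of_succ_le
  intro i
  linarith [e_nonneg (m := m) h0 h1 i]

theorem U_le (h0 : 0 < γ) (h1 : γ < 1) (N : ℕ) :
    (∑ k ∈ range (N + 1), u γ m k) * G γ m N ≤ 1 := by
  rw [← sum_uG (γ := γ) (m := m) N, sum_mul]
  apply sum_le_sum
  intro k _
  apply mul_le_mul_of_nonneg_left _ (u_nonneg h0 h1 _)
  exact G_anti h0 h1 (by omega)

theorem u_le (h0 : 0 < γ) (h1 : γ < 1) (N : ℕ) :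
    u γ m N * ((N + 1) * G γ m N) ≤ 1 := by
  refine le_trans ?_ (U_le (m := m) h0 h1 N)
  rw [← mul_assoc]
  apply mul_le_mul_of_nonneg_right _ (G_pos h0 h1 _).le
  have : ∑ k ∈ range (N + 1), u γ m N ≤ ∑ k ∈ range (N + 1), u γ m k := by
    apply sum_le_sum
    intro k hk
    exact u_anti h0 h1 (by have := mem_range.mp hk; omega)
  rw [sum_const, card_range, nsmul_eq_mul] at this
  push_cast at this
  linarith

/-- `G i (i+1)^γ` is monotone. -/
theorem G_mono (h0 : 0 < γ) (h1 : γ < 1) (hm : 1 ≤ m) :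
    Monotone (fun i : ℕ => G γ m i * ((i : ℝ) + 1) ^ γ) := by
  apply monotone_nat_of_le_succ
  intro i
  have hm' : (1:ℝ) ≤ m := by exact_mod_cast hm
  have hi : (0:ℝ) ≤ i := Nat.cast_nonneg i
  have hb : (1 + (-(1 / ((i:ℝ) + 2)))) ^ γ ≤ 1 + γ * (-(1 / ((i:ℝ) + 2))) := by
    apply rpow_one_add_le_one_add_mul_self _ h0.le h1.le
    have : 1 / ((i:ℝ) + 2) ≤ 1 := by rw [div_le_one (by positivity)]; linarith
    linarith
  have e1 : (1 + (-(1 / ((i:ℝ) + 2)))) = ((i:ℝ) + 1) / ((i:ℝ) + 2) := by field_simp; ring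
  rw [e1, Real.div_rpow (by positivity) (by positivity)] at hb
  have hp : 0 < ((i:ℝ) + 2) ^ γ := by positivity
  rw [div_le_iff₀ hp] at hb
  push_cast
  rw [G_succ, mul_assoc]
  apply mul_le_mul_of_nonneg_left _ (G_pos h0 h1 _).le
  refine hb.trans ?_
  have e2 : ((i:ℝ) + 1 + 1) = (i:ℝ) + 2 := by ring
  rw [e2]
  apply mul_le_mul_of_nonneg_right _ hp.le
  have h6 : γ / (m + i + 1) ≤ γ / (i + 2) := by
    apply div_le_div_of_nonneg_left h0.le (by positivity)
    linarith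
  have e3 : γ * (-(1 / ((i:ℝ) + 2))) = - (γ / (i + 2)) := by ring
  rw [e3]
  linarith

/-- upper bound for `G` -/
theorem G_upper (h0 : 0 < γ) (h1 : γ < 1) (i : ℕ) :
    G γ m i * ((m : ℝ) + i + 1) ^ γ ≤ ((m : ℝ) + 1) ^ γ := by
  induction i with
  | zero => simp [G_zero]
  | succ i ih =>
    refine le_trans ?_ ih
    rw [G_succ, mul_assoc]
    apply mul_le_mul_of_nonneg_left _ (G_pos h0 h1 _).le
    have hm : (0:ℝ) ≤ m := Nat.cast_nonneg m
    have hi : (0:ℝ) ≤ i := Nat.cast_nonneg i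
    set x : ℝ := (m:ℝ) + i + 1 with hx
    have hx1 : 1 ≤ x := by rw [hx]; linarith
    have hx0 : 0 < x := by linarith
    have hb : (1 + 1 / x) ^ γ ≤ 1 + γ * (1 / x) := by
      apply rpow_one_add_le_one_add_mul_self _ h0.le h1.le
      have : 0 ≤ 1 / x := by positivity
      linarith
    have e1 : (m:ℝ) + (i + 1 : ℕ) + 1 = x * (1 + 1 / x) := by
      push_cast
      field_simp
      rw [hx]; ring
    rw [e1, Real.mul_rpow hx0.le (by positivity)]
    have hxg : 0 < x ^ γ := by positivity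
    have h7 : (1 - γ / x) * (1 + 1 / x) ^ γ ≤ 1 := by
      calc (1 - γ / x) * (1 + 1 / x) ^ γ ≤ (1 - γ / x) * (1 + γ * (1 / x)) :=
            mul_le_mul_of_nonneg_left hb (r_pos (m := m) h0 h1 i).le
        _ = 1 - (γ / x) ^ 2 := by ring
        _ ≤ 1 := by nlinarith [sq_nonneg (γ / x)]
    calc (1 - γ / x) * (x ^ γ * (1 + 1 / x) ^ γ) = x ^ γ * ((1 - γ / x) * (1 + 1 / x) ^ γ) := by ring
      _ ≤ x ^ γ * 1 := mul_le_mul_of_nonneg_left h7 hxg.le
      _ = x ^ γ := mul_one _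

/-- the kernel `H(a, b+1)` -/
noncomputable def H (γ : ℝ) (m a b : ℕ) : ℝ := ∑ k ∈ range (a + 1), u γ m k * f γ m (a + b - k)

theorem Uf_le (h0 : 0 < γ) (h1 : γ < 1) {a b : ℕ} (hab : a ≤ b) :
    (∑ k ∈ range (a + 1), u γ m k) * f γ m b ≤ 1 / (b + 1) := by
  have hGa := G_pos (m := m) h0 h1 a
  have hGb := G_pos (m := m) h0 h1 b
  have hU := U_le (m := m) h0 h1 a
  have hU0 : 0 ≤ ∑ k ∈ range (a + 1), u γ m k := sum_nonneg fun k _ => u_nonneg h0 h1 k
  have hG := G_anti (m := m) h0 h1 hab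
  unfold f
  rw [mul_div_assoc', div_le_div_iff₀ (by positivity) (by positivity)]
  have hm : (0:ℝ) ≤ m := Nat.cast_nonneg m
  have hb : (0:ℝ) ≤ b := Nat.cast_nonneg b
  have h2 : (∑ k ∈ range (a + 1), u γ m k) * (γ * G γ m b) ≤ 1 := by
    calc (∑ k ∈ range (a + 1), u γ m k) * (γ * G γ m b)
        = γ * ((∑ k ∈ range (a + 1), u γ m k) * G γ m b) := by ring
      _ ≤ 1 * ((∑ k ∈ range (a + 1), u γ m k) * G γ m b) :=
          mul_le_mul_of_nonneg_right h1.le (mul_nonneg hU0 hGb.le)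
      _ ≤ 1 * ((∑ k ∈ range (a + 1), u γ m k) * G γ m a) := by
          gcongr
      _ ≤ 1 := by linarith
  nlinarith

theorem H_K2 (h0 : 0 < γ) (h1 : γ < 1) {a b : ℕ} (hab : a ≤ b) :
    H γ m a b ≤ 1 / (b + 1) := by
  refine le_trans ?_ (Uf_le (m := m) h0 h1 hab)
  unfold H
  rw [sum_mul]
  apply sum_le_sum
  intro k hk
  have := mem_range.mp hk
  exact mul_le_mul_of_nonneg_left (f_anti h0 h1 (by omega)) (u_nonneg h0 h1 _)

theorem sum_f_le (h0 : 0 < γ) (h1 : γ < 1) (b n : ℕ) :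
    ∑ j ∈ range n, f γ m (b + j) = G γ m b - G γ m (b + n) := by
  induction n with
  | zero => simp
  | succ n ih =>
    rw [sum_range_succ, ih, ← add_assoc, G_succ']
    ring


theorem H_split (h0 : 0 < γ) (h1 : γ < 1) (a b : ℕ) :
    H γ m a b ≤ 2 / ((a:ℝ) + 1) + u γ m (a / 2) * G γ m b := by
  have hs : H γ m a b = ∑ k ∈ range (a / 2 + 1), u γ m k * f γ m (a + b - k) +
      ∑ k ∈ Ico (a / 2 + 1) (a + 1), u γ m k * f γ m (a + b - k) := by
    unfold H
    rw [sum_range_add_sum_Ico _ (by omega)]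
  rw [hs]
  apply add_le_add
  · have h2 : ∑ k ∈ range (a / 2 + 1), u γ m k * f γ m (a + b - k) ≤
        (∑ k ∈ range (a / 2 + 1), u γ m k) * f γ m (a / 2) := by
      rw [sum_mul]
      apply sum_le_sum
      intro k hk
      have := mem_range.mp hk
      exact mul_le_mul_of_nonneg_left (f_anti h0 h1 (by omega)) (u_nonneg h0 h1 _)
    refine h2.trans ((Uf_le (m := m) h0 h1 le_rfl).trans ?_)
    rw [div_le_div_iff₀ (by positivity) (by positivity)]
    have : ((a : ℕ) : ℝ) ≤ ((2 * (a / 2) + 1 : ℕ) : ℝ) := by exact_mod_cast (by omega)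
    push_cast at this
    linarith
  · have h2 : ∑ k ∈ Ico (a / 2 + 1) (a + 1), u γ m k * f γ m (a + b - k) ≤
        u γ m (a / 2) * ∑ k ∈ Ico (a / 2 + 1) (a + 1), f γ m (a + b - k) := by
      rw [mul_sum]
      apply sum_le_sum
      intro k hk
      have := mem_Ico.mp hk
      exact mul_le_mul_of_nonneg_right (u_anti h0 h1 (by omega)) (f_nonneg h0 h1 _)
    refine h2.trans ?_
    apply mul_le_mul_of_nonneg_left _ (u_nonneg h0 h1 _)
    have h3 : ∑ k ∈ Ico (a / 2 + 1) (a + 1), f γ m (a + b - k) =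
        ∑ j ∈ range (a - a / 2), f γ m (b + j) := by
      have h4 := sum_range_reflect (fun j => f γ m (b + j)) (a - a / 2)
      rw [← h4, sum_Ico_eq_sum_range]
      have e1 : a + 1 - (a / 2 + 1) = a - a / 2 := by omega
      rw [e1]
      apply sum_congr rfl
      intro j hj
      have := mem_range.mp hj
      congr 1
      omega
    rw [h3, sum_f_le h0 h1]
    linarith [G_pos (m := m) h0 h1 (b + (a - a / 2))]

theorem H_K1 (h0 : 0 < γ) (h1 : γ < 1) (hm : 1 ≤ m) {a b : ℕ} (hab : b ≤ a) :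
    H γ m a b ≤ 4 * ((a:ℝ) + 1) ^ (γ - 1) * ((b:ℝ) + 1) ^ (-γ) := by
  have ha : (0:ℝ) ≤ a := Nat.cast_nonneg a
  have hb : (0:ℝ) ≤ b := Nat.cast_nonneg b
  have hba : (b:ℝ) ≤ a := by exact_mod_cast hab
  set w : ℝ := ((a:ℝ) + 1) ^ (γ - 1) * ((b:ℝ) + 1) ^ (-γ) with hw
  have hw0 : 0 < w := by positivity
  have hA : 1 / ((a:ℝ) + 1) ≤ w := by
    have e1 : 1 / ((a:ℝ) + 1) = ((a:ℝ) + 1) ^ (γ - 1) * ((a:ℝ) + 1) ^ (-γ) := by
      rw [← Real.rpow_add (by positivity)]
      have : γ - 1 + -γ = -1 := by ring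
      rw [this, Real.rpow_neg_one, one_div]
    rw [e1, hw]
    apply mul_le_mul_of_nonneg_left _ (by positivity)
    exact Real.rpow_le_rpow_of_nonpos (by positivity) (by linarith) (by linarith)
  have h2 : 2 / ((a:ℝ) + 1) ≤ 2 * w := by
    have : 2 / ((a:ℝ) + 1) = 2 * (1 / ((a:ℝ) + 1)) := by ring
    rw [this]; linarith
  have hp : ((a : ℕ) : ℝ) ≤ ((2 * (a / 2) + 1 : ℕ) : ℝ) := by exact_mod_cast (by omega)
  push_cast at hp
  set a' := a / 2 with ha'
  have ha'0 : (0:ℝ) ≤ a' := Nat.cast_nonneg a'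
  have hGa := G_pos (m := m) h0 h1 a'
  have hGb := G_pos (m := m) h0 h1 b
  have hu := u_le (m := m) h0 h1 a'
  have hu0 := u_nonneg (m := m) h0 h1 a'
  have h3 : u γ m a' * G γ m b ≤ 2 * w := by
    by_cases hb' : b ≤ a'
    · have hmono := G_mono h0 h1 hm hb'
      simp only at hmono
      -- u * G b ≤ u * G a' * ((a'+1)/(b+1))^γ ≤ (a'+1)^(γ-1) (b+1)^(-γ)
      have h4 : G γ m b ≤ G γ m a' * (((a':ℝ) + 1) ^ γ * ((b:ℝ) + 1) ^ (-γ)) := by
        rw [Real.rpow_neg (by positivity)]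
        have hbp : 0 < ((b:ℝ) + 1) ^ γ := by positivity
        rw [← mul_assoc, ← div_eq_mul_inv, le_div_iff₀ hbp]
        exact hmono
      have h5 : u γ m a' * G γ m b ≤ ((a':ℝ) + 1) ^ (γ - 1) * ((b:ℝ) + 1) ^ (-γ) := by
        calc u γ m a' * G γ m b
            ≤ u γ m a' * (G γ m a' * (((a':ℝ) + 1) ^ γ * ((b:ℝ) + 1) ^ (-γ))) :=
              mul_le_mul_of_nonneg_left h4 hu0
          _ = (u γ m a' * (((a':ℝ) + 1) * G γ m a')) *
              ((((a':ℝ) + 1) ^ γ / ((a':ℝ) + 1)) * ((b:ℝ) + 1) ^ (-γ)) := by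
              field_simp
          _ ≤ 1 * ((((a':ℝ) + 1) ^ γ / ((a':ℝ) + 1)) * ((b:ℝ) + 1) ^ (-γ)) :=
              mul_le_mul_of_nonneg_right hu (by positivity)
          _ = _ := by rw [Real.rpow_sub_one (by positivity), one_mul]
      have h6 : ((a':ℝ) + 1) ^ (γ - 1) ≤ 2 * ((a:ℝ) + 1) ^ (γ - 1) := by
        calc ((a':ℝ) + 1) ^ (γ - 1) ≤ (((a:ℝ) + 1) / 2) ^ (γ - 1) :=
              Real.rpow_le_rpow_of_nonpos (by positivity) (by linarith) (by linarith)
          _ = ((a:ℝ) + 1) ^ (γ - 1) * (2:ℝ) ^ (1 - γ) := by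
              rw [Real.div_rpow (by positivity) (by norm_num), div_eq_mul_inv,
                ← Real.rpow_neg (by norm_num)]
              congr 2
              ring
          _ ≤ ((a:ℝ) + 1) ^ (γ - 1) * 2 := by
              apply mul_le_mul_of_nonneg_left _ (by positivity)
              calc (2:ℝ) ^ (1 - γ) ≤ (2:ℝ) ^ (1:ℝ) :=
                    Real.rpow_le_rpow_of_exponent_le (by norm_num) (by linarith)
                _ = 2 := by norm_num
          _ = _ := by ring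
      refine h5.trans ?_
      rw [hw, ← mul_assoc]
      exact mul_le_mul_of_nonneg_right h6 (by positivity)
    · have hb'' : G γ m b ≤ G γ m a' := G_anti h0 h1 (by omega)
      have h4 : u γ m a' * G γ m b ≤ 1 / ((a':ℝ) + 1) := by
        rw [le_div_iff₀ (by positivity)]
        calc u γ m a' * G γ m b * ((a':ℝ) + 1) ≤ u γ m a' * G γ m a' * ((a':ℝ) + 1) := by
              gcongr
          _ = u γ m a' * (((a':ℝ) + 1) * G γ m a') := by ring
          _ ≤ 1 := hu
      refine h4.trans (le_trans ?_ h2)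
      rw [div_le_div_iff₀ (by positivity) (by positivity)]
      linarith
  have hs := H_split (m := m) h0 h1 a b
  calc H γ m a b ≤ 2 / ((a:ℝ) + 1) + u γ m a' * G γ m b := hs
    _ ≤ 2 * w + 2 * w := add_le_add h2 h3
    _ = _ := by rw [hw]; ring

/-- the majorant -/
noncomputable def K (γ : ℝ) (a b : ℕ) : ℝ :=
  if b ≤ a then 4 * ((a:ℝ) + 1) ^ (γ - 1) * ((b:ℝ) + 1) ^ (-γ) else 1 / ((b:ℝ) + 1)

theorem H_le_K (h0 : 0 < γ) (h1 : γ < 1) (hm : 1 ≤ m) (a b : ℕ) : H γ m a b ≤ K γ a b := by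
  unfold K
  split_ifs with h
  · exact H_K1 h0 h1 hm h
  · exact H_K2 h0 h1 (by omega)

theorem K_nonneg (a b : ℕ) : 0 ≤ K γ a b := by
  unfold K
  split_ifs <;> positivity

end

/-! power sums -/

theorem ps1 {τ : ℝ} (h0 : 0 ≤ τ) (h1 : τ < 1) (n : ℕ) :
    ∑ k ∈ range n, ((k:ℝ) + 1) ^ (-τ) ≤ (n:ℝ) ^ (1 - τ) / (1 - τ) := by
  have h1' : 0 < 1 - τ := by linarith
  induction n with
  | zero => simp [Real.zero_rpow h1'.ne']
  | succ n ih =>
    rw [sum_range_succ]
    have hn : (0:ℝ) ≤ n := Nat.cast_nonneg n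
    have hb : (1 + (-(1 / ((n:ℝ) + 1)))) ^ (1 - τ) ≤ 1 + (1 - τ) * (-(1 / ((n:ℝ) + 1))) := by
      apply rpow_one_add_le_one_add_mul_self _ h1'.le (by linarith)
      have : 1 / ((n:ℝ) + 1) ≤ 1 := by rw [div_le_one (by positivity)]; linarith
      linarith
    have e1 : (1 + (-(1 / ((n:ℝ) + 1)))) = (n:ℝ) / ((n:ℝ) + 1) := by field_simp; ring
    rw [e1, Real.div_rpow (by positivity) (by positivity)] at hb
    have hp : 0 < ((n:ℝ) + 1) ^ (1 - τ) := by positivity
    rw [div_le_iff₀ hp] at hb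
    have e2 : ((n:ℝ) + 1) ^ (-τ) = ((n:ℝ) + 1) ^ (1 - τ) * (1 / ((n:ℝ) + 1)) := by
      have : -τ = (1 - τ) - 1 := by ring
      rw [this, Real.rpow_sub_one (by positivity)]
      ring
    rw [e2]
    push_cast
    have e3 : (n:ℝ) ^ (1 - τ) / (1 - τ) + ((n:ℝ) + 1) ^ (1 - τ) * (1 / ((n:ℝ) + 1)) ≤
        ((n:ℝ) + 1) ^ (1 - τ) / (1 - τ) := by
      rw [div_add' _ _ _ h1'.ne', div_le_div_iff_of_pos_right h1']
      nlinarith
    linarith

theorem ps2 {s : ℝ} (hs : 0 < s) (n M : ℕ) :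
    ∑ k ∈ Ico n M, ((k:ℝ) + 1) ^ (-1 - s) ≤ (1 + 1 / s) * ((n:ℝ) + 1) ^ (-s) := by
  have key : ∀ k : ℕ, s * ((k:ℝ) + 2) ^ (-1 - s) ≤
      ((k:ℝ) + 1) ^ (-s) - ((k:ℝ) + 2) ^ (-s) := by
    intro k
    have hk : (0:ℝ) ≤ k := Nat.cast_nonneg k
    have h1 : ((k:ℝ) + 1) ^ (-s) = ((k:ℝ) + 2) ^ (-s) * (((k:ℝ) + 1) / ((k:ℝ) + 2)) ^ (-s) := by
      rw [← Real.mul_rpow (by positivity) (by positivity)]
      congr 1
      field_simp
    have h2 : 1 + s * (1 / ((k:ℝ) + 2)) ≤ (((k:ℝ) + 1) / ((k:ℝ) + 2)) ^ (-s) := by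
      have hx : 0 < ((k:ℝ) + 1) / ((k:ℝ) + 2) := by positivity
      rw [Real.rpow_def_of_pos hx]
      have h3 := Real.log_le_sub_one_of_pos hx
      have h4 : ((k:ℝ) + 1) / ((k:ℝ) + 2) - 1 = - (1 / ((k:ℝ) + 2)) := by field_simp; ring
      rw [h4] at h3
      have h5 := Real.add_one_le_exp (Real.log (((k:ℝ) + 1) / ((k:ℝ) + 2)) * -s)
      nlinarith
    have h6 : ((k:ℝ) + 2) ^ (-1 - s) = ((k:ℝ) + 2) ^ (-s) * (1 / ((k:ℝ) + 2)) := by
      have : -1 - s = (-s) - 1 := by ring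
      rw [this, Real.rpow_sub_one (by positivity)]
      ring
    rw [h1, h6]
    have hp : 0 < ((k:ℝ) + 2) ^ (-s) := by positivity
    nlinarith
  by_cases hnM : n < M
  · have h1 : ∀ M : ℕ, n + 1 ≤ M → ∑ k ∈ Ico (n + 1) M, ((k:ℝ) + 1) ^ (-1 - s) ≤
        (1 / s) * (((n:ℝ) + 1) ^ (-s) - (M:ℝ) ^ (-s)) := by
      intro M hM
      induction M, hM using Nat.le_induction with
      | base => simp
      | succ M hM ih =>
        rw [sum_Ico_succ_top hM]
        obtain ⟨j, rfl⟩ : ∃ j, M = j + 1 := ⟨M - 1, by omega⟩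
        have hk := key j
        push_cast at ih ⊢
        have e1 : (j:ℝ) + 1 + 1 = j + 2 := by ring
        rw [e1] at *
        have : ((j:ℝ) + 2) ^ (-1 - s) ≤ (1 / s) * (((j:ℝ) + 1) ^ (-s) - ((j:ℝ) + 2) ^ (-s)) := by
          rw [one_div, inv_mul_eq_div, le_div_iff₀ hs]
          linarith
        have e2 : (1 / s) * (((n:ℝ) + 1) ^ (-s) - ((j:ℝ) + 2) ^ (-s)) =
          (1 / s) * (((n:ℝ) + 1) ^ (-s) - ((j:ℝ) + 1) ^ (-s)) +
          (1 / s) * (((j:ℝ) + 1) ^ (-s) - ((j:ℝ) + 2) ^ (-s)) := by ring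
        rw [e2]
        exact add_le_add ih this
    rw [sum_eq_sum_Ico_succ_bot hnM]
    have h2 := h1 M hnM
    have hn : (0:ℝ) ≤ n := Nat.cast_nonneg n
    have h3 : ((n:ℝ) + 1) ^ (-1 - s) ≤ ((n:ℝ) + 1) ^ (-s) :=
      Real.rpow_le_rpow_of_exponent_le (by linarith) (by linarith)
    have h4 : 0 ≤ (1 / s) * (M:ℝ) ^ (-s) := by positivity
    nlinarith
  · rw [Ico_eq_empty (by omega)]
    simp only [sum_empty]
    positivity

/-! Schur test -/

section schur
variable {γ : ℝ}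

theorem sch1 (h0 : 0 < γ) {τ : ℝ} (h1 : γ < τ) (h2 : τ < 1) (A b : ℕ) :
    ∑ a ∈ range A, K γ a b * ((a:ℝ) + 1) ^ (-τ) ≤
      (1 / (1 - τ) + 4 * (1 + 1 / (τ - γ))) * ((b:ℝ) + 1) ^ (-τ) := by
  have hb : (0:ℝ) ≤ b := Nat.cast_nonneg b
  have h1' : 0 < 1 - τ := by linarith
  have hle : ∑ a ∈ range A, K γ a b * ((a:ℝ) + 1) ^ (-τ) ≤
      ∑ a ∈ range (max A b), K γ a b * ((a:ℝ) + 1) ^ (-τ) := by
    apply sum_le_sum_of_subset_of_nonneg
    · intro x hx
      rw [mem_range] at hx ⊢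
      omega
    · intro i _ _
      exact mul_nonneg (K_nonneg _ _) (by positivity)
  refine hle.trans ?_
  rw [← sum_range_add_sum_Ico _ (le_max_right A b), add_mul]
  apply add_le_add
  · have e1 : ∀ a ∈ range b, K γ a b * ((a:ℝ) + 1) ^ (-τ) =
        (1 / ((b:ℝ) + 1)) * ((a:ℝ) + 1) ^ (-τ) := by
      intro a ha
      have := mem_range.mp ha
      unfold K
      rw [if_neg (by omega)]
    rw [sum_congr rfl e1, ← mul_sum]
    have e2 := ps1 (by linarith : (0:ℝ) ≤ τ) h2 b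
    have e3 : (b:ℝ) ^ (1 - τ) ≤ ((b:ℝ) + 1) ^ (1 - τ) :=
      Real.rpow_le_rpow hb (by linarith) h1'.le
    have e4 : ((b:ℝ) + 1) ^ (-τ) = ((b:ℝ) + 1) ^ (1 - τ) * (1 / ((b:ℝ) + 1)) := by
      have : -τ = (1 - τ) - 1 := by ring
      rw [this, Real.rpow_sub_one (by positivity)]
      ring
    rw [e4]
    calc 1 / ((b:ℝ) + 1) * ∑ i ∈ range b, ((i:ℝ) + 1) ^ (-τ)
        ≤ 1 / ((b:ℝ) + 1) * (((b:ℝ) + 1) ^ (1 - τ) / (1 - τ)) := by
          apply mul_le_mul_of_nonneg_left _ (by positivity)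
          refine e2.trans ?_
          exact div_le_div_of_nonneg_right e3 h1'.le
      _ = _ := by ring
  · have e1 : ∀ a ∈ Ico b (max A b), K γ a b * ((a:ℝ) + 1) ^ (-τ) =
        (4 * ((b:ℝ) + 1) ^ (-γ)) * ((a:ℝ) + 1) ^ (-1 - (τ - γ)) := by
      intro a ha
      have := mem_Ico.mp ha
      unfold K
      rw [if_pos (by omega)]
      have : -1 - (τ - γ) = (γ - 1) + (-τ) := by ring
      rw [this, Real.rpow_add (by positivity)]
      ring
    rw [sum_congr rfl e1, ← mul_sum]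
    have e2 := ps2 (by linarith : 0 < τ - γ) b (max A b)
    calc 4 * ((b:ℝ) + 1) ^ (-γ) * ∑ i ∈ Ico b (max A b), ((i:ℝ) + 1) ^ (-1 - (τ - γ))
        ≤ 4 * ((b:ℝ) + 1) ^ (-γ) * ((1 + 1 / (τ - γ)) * ((b:ℝ) + 1) ^ (-(τ - γ))) :=
          mul_le_mul_of_nonneg_left e2 (by positivity)
      _ = 4 * (1 + 1 / (τ - γ)) * (((b:ℝ) + 1) ^ (-γ) * ((b:ℝ) + 1) ^ (-(τ - γ))) := by ring
      _ = _ := by
          rw [← Real.rpow_add (by positivity)]
          congr 2
          ring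

theorem sch2 (h0 : 0 < γ) {σ : ℝ} (h1 : 0 < σ) (h2 : γ + σ < 1) (B a : ℕ) :
    ∑ b ∈ range B, K γ a b * ((b:ℝ) + 1) ^ (-σ) ≤
      (4 / (1 - (γ + σ)) + (1 + 1 / σ)) * ((a:ℝ) + 1) ^ (-σ) := by
  have ha : (0:ℝ) ≤ a := Nat.cast_nonneg a
  have h1' : 0 < 1 - (γ + σ) := by linarith
  have hle : ∑ b ∈ range B, K γ a b * ((b:ℝ) + 1) ^ (-σ) ≤
      ∑ b ∈ range (max B (a + 1)), K γ a b * ((b:ℝ) + 1) ^ (-σ) := by
    apply sum_le_sum_of_subset_of_nonneg
    · intro x hx
      rw [mem_range] at hx ⊢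
      omega
    · intro i _ _
      exact mul_nonneg (K_nonneg _ _) (by positivity)
  refine hle.trans ?_
  rw [← sum_range_add_sum_Ico _ (le_max_right B (a + 1)), add_mul]
  apply add_le_add
  · have e1 : ∀ b ∈ range (a + 1), K γ a b * ((b:ℝ) + 1) ^ (-σ) =
        (4 * ((a:ℝ) + 1) ^ (γ - 1)) * ((b:ℝ) + 1) ^ (-(γ + σ)) := by
      intro b hb
      have := mem_range.mp hb
      unfold K
      rw [if_pos (by omega)]
      have : -(γ + σ) = (-γ) + (-σ) := by ring
      rw [this, Real.rpow_add (by positivity)]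
      ring
    rw [sum_congr rfl e1, ← mul_sum]
    have e2 := ps1 (by linarith : (0:ℝ) ≤ γ + σ) h2 (a + 1)
    push_cast at e2
    calc 4 * ((a:ℝ) + 1) ^ (γ - 1) * ∑ i ∈ range (a + 1), ((i:ℝ) + 1) ^ (-(γ + σ))
        ≤ 4 * ((a:ℝ) + 1) ^ (γ - 1) * (((a:ℝ) + 1) ^ (1 - (γ + σ)) / (1 - (γ + σ))) :=
          mul_le_mul_of_nonneg_left e2 (by positivity)
      _ = 4 / (1 - (γ + σ)) * (((a:ℝ) + 1) ^ (γ - 1) * ((a:ℝ) + 1) ^ (1 - (γ + σ))) := by ring
      _ = _ := by
          rw [← Real.rpow_add (by positivity)]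
          congr 2
          ring
  · have e1 : ∀ b ∈ Ico (a + 1) (max B (a + 1)), K γ a b * ((b:ℝ) + 1) ^ (-σ) =
        ((b:ℝ) + 1) ^ (-1 - σ) := by
      intro b hb
      have := mem_Ico.mp hb
      unfold K
      rw [if_neg (by omega)]
      have : -1 - σ = (-σ) - 1 := by ring
      rw [this, Real.rpow_sub_one (by positivity)]
      ring
    rw [sum_congr rfl e1]
    have e2 := ps2 h1 (a + 1) (max B (a + 1))
    refine e2.trans ?_
    apply mul_le_mul_of_nonneg_left _ (by positivity)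
    apply Real.rpow_le_rpow_of_nonpos (by positivity) _ (by linarith)
    push_cast
    linarith

theorem schur {q : ℝ} (hq : 1 < q) (h0 : 0 < γ) {τ : ℝ} (h1 : γ < τ) (h2 : τ < 1)
    (h3 : γ + τ * (q - 1) < 1) (A B : ℕ) (y : ℕ → ℝ) (hy : ∀ a, 0 ≤ y a) :
    ∑ b ∈ range B, (∑ a ∈ range A, K γ a b * y a) ^ q ≤
      ((1 / (1 - τ) + 4 * (1 + 1 / (τ - γ))) ^ (q - 1) *
        (4 / (1 - (γ + τ * (q - 1))) + (1 + 1 / (τ * (q - 1))))) * ∑ a ∈ range A, y a ^ q := by
  have hq1 : 0 < q - 1 := by linarith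
  have hτ : 0 < τ := by linarith
  have hσ : 0 < τ * (q - 1) := by positivity
  set C1 : ℝ := 1 / (1 - τ) + 4 * (1 + 1 / (τ - γ)) with hC1
  set C2 : ℝ := 4 / (1 - (γ + τ * (q - 1))) + (1 + 1 / (τ * (q - 1))) with hC2
  have hC10 : 0 ≤ C1 := by
    have : 0 < 1 - τ := by linarith
    have : 0 < τ - γ := by linarith
    positivity
  have hb : ∀ b : ℕ, (∑ a ∈ range A, K γ a b * y a) ^ q ≤
      C1 ^ (q - 1) * ∑ a ∈ range A, (((a:ℝ) + 1) ^ (τ * (q - 1)) * y a ^ q) *
        (K γ a b * ((b:ℝ) + 1) ^ (-(τ * (q - 1)))) := by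
    intro b
    have hw := Pool.Agent.Helper576.LpMult.wpow (range A) hq.le
      (fun a => K γ a b * ((a:ℝ) + 1) ^ (-τ)) (fun a => ((a:ℝ) + 1) ^ τ * y a)
      (fun a _ => mul_nonneg (K_nonneg _ _) (by positivity))
      (fun a _ => mul_nonneg (by positivity) (hy a))
    have e1 : ∀ a ∈ range A, K γ a b * ((a:ℝ) + 1) ^ (-τ) * (((a:ℝ) + 1) ^ τ * y a) =
        K γ a b * y a := by
      intro a _
      rw [mul_assoc, ← mul_assoc (((a:ℝ) + 1) ^ (-τ)), ← Real.rpow_add (by positivity)]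
      simp
    rw [sum_congr rfl e1] at hw
    refine hw.trans ?_
    have e2 : (∑ a ∈ range A, K γ a b * ((a:ℝ) + 1) ^ (-τ)) ^ (q - 1) ≤
        C1 ^ (q - 1) * ((b:ℝ) + 1) ^ (-(τ * (q - 1))) := by
      calc (∑ a ∈ range A, K γ a b * ((a:ℝ) + 1) ^ (-τ)) ^ (q - 1)
          ≤ (C1 * ((b:ℝ) + 1) ^ (-τ)) ^ (q - 1) := by
            apply Real.rpow_le_rpow _ (sch1 h0 h1 h2 A b) hq1.le
            exact sum_nonneg fun a _ => mul_nonneg (K_nonneg _ _) (by positivity)
        _ = _ := by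
            rw [Real.mul_rpow hC10 (by positivity), ← Real.rpow_mul (by positivity)]
            congr 2
            ring
    have e3 : ∑ a ∈ range A, K γ a b * ((a:ℝ) + 1) ^ (-τ) * (((a:ℝ) + 1) ^ τ * y a) ^ q =
        ∑ a ∈ range A, (((a:ℝ) + 1) ^ (τ * (q - 1)) * y a ^ q) * K γ a b := by
      apply sum_congr rfl
      intro a _
      rw [Real.mul_rpow (by positivity) (hy a), ← Real.rpow_mul (by positivity)]
      have : ((a:ℝ) + 1) ^ (τ * (q - 1)) = ((a:ℝ) + 1) ^ (-τ) * ((a:ℝ) + 1) ^ (τ * q) := by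
        rw [← Real.rpow_add (by positivity)]
        congr 1
        ring
      rw [this]
      ring
    rw [e3]
    have e4 : 0 ≤ ∑ a ∈ range A, (((a:ℝ) + 1) ^ (τ * (q - 1)) * y a ^ q) * K γ a b :=
      sum_nonneg fun a _ => mul_nonneg (mul_nonneg (by positivity)
        (Real.rpow_nonneg (hy a) _)) (K_nonneg _ _)
    refine (mul_le_mul_of_nonneg_right e2 e4).trans (le_of_eq ?_)
    rw [mul_assoc, mul_sum]
    congr 1
    apply sum_congr rfl
    intro a _
    ring
  calc ∑ b ∈ range B, (∑ a ∈ range A, K γ a b * y a) ^ q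
      ≤ ∑ b ∈ range B, C1 ^ (q - 1) * ∑ a ∈ range A, (((a:ℝ) + 1) ^ (τ * (q - 1)) * y a ^ q) *
        (K γ a b * ((b:ℝ) + 1) ^ (-(τ * (q - 1)))) := sum_le_sum fun b _ => hb b
    _ = C1 ^ (q - 1) * ∑ a ∈ range A, (((a:ℝ) + 1) ^ (τ * (q - 1)) * y a ^ q) *
        ∑ b ∈ range B, (K γ a b * ((b:ℝ) + 1) ^ (-(τ * (q - 1)))) := by
        rw [← mul_sum, sum_comm]
        congr 1
        apply sum_congr rfl
        intro a _
        rw [mul_sum]
    _ ≤ C1 ^ (q - 1) * ∑ a ∈ range A, (((a:ℝ) + 1) ^ (τ * (q - 1)) * y a ^ q) *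
        (C2 * ((a:ℝ) + 1) ^ (-(τ * (q - 1)))) := by
        apply mul_le_mul_of_nonneg_left _ (by positivity)
        apply sum_le_sum
        intro a _
        exact mul_le_mul_of_nonneg_left (sch2 h0 hσ h3 B a)
          (mul_nonneg (by positivity) (Real.rpow_nonneg (hy a) _))
    _ = C1 ^ (q - 1) * C2 * ∑ a ∈ range A, y a ^ q := by
        rw [mul_assoc, mul_sum (range A) _ C2]
        congr 1
        apply sum_congr rfl
        intro a _
        have : ((a:ℝ) + 1) ^ (τ * (q - 1)) * ((a:ℝ) + 1) ^ (-(τ * (q - 1))) = 1 := by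
          rw [← Real.rpow_add (by positivity)]
          simp
        calc ((a:ℝ) + 1) ^ (τ * (q - 1)) * y a ^ q * (C2 * ((a:ℝ) + 1) ^ (-(τ * (q - 1))))
            = (((a:ℝ) + 1) ^ (τ * (q - 1)) * ((a:ℝ) + 1) ^ (-(τ * (q - 1)))) * (C2 * y a ^ q) := by
              ring
          _ = C2 * y a ^ q := by rw [this, one_mul]

end schur

/-! the operator -/

open Pool.Agent.W692.TB

section main
variable {γ : ℝ} {m : ℕ}

/-- the perturbation -/
noncomputable def vv (γ : ℝ) (m : ℕ) (k : ℕ) : ℝ := -f γ m (k - 1)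

/-- coordinates below `n` -/
noncomputable def yy (γ : ℝ) (m : ℕ) (c : ℕ → ℝ) (i : ℕ) : ℝ :=
  c i - ∑ j ∈ range i, f γ m (i - 1 - j) * c j

theorem yco_lt {n i : ℕ} (hi : i < n) (c : ℕ → ℝ) : yco n (vv γ m) c i = yy γ m c i := by
  unfold yco yy vv
  rw [← sum_range_add_sum_Ico _ (by omega : i + 1 ≤ n), sum_range_succ]
  have h1 : ∑ j ∈ Ico (i + 1) n, (if i = j then c j
      else if j < i ∧ i < j + n then -f γ m (i - j - 1) * c j else 0) = 0 := by
    apply sum_eq_zero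
    intro j hj
    have := mem_Ico.mp hj
    rw [if_neg (by omega), if_neg (by omega)]
  have h2 : ∀ j ∈ range i, (if i = j then c j
      else if j < i ∧ i < j + n then -f γ m (i - j - 1) * c j else 0) =
      -(f γ m (i - 1 - j) * c j) := by
    intro j hj
    have := mem_range.mp hj
    rw [if_neg (by omega), if_pos (by omega)]
    have e : i - j - 1 = i - 1 - j := by omega
    rw [e]
    ring
  rw [h1, sum_congr rfl h2, sum_neg_distrib]
  simp
  ring

theorem inv_y (c : ℕ → ℝ) (i : ℕ) :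
    c i = ∑ l ∈ range (i + 1), u γ m (i - l) * yy γ m c l := by
  induction i using Nat.strong_induction_on with
  | _ i ih =>
    rw [sum_range_succ, Nat.sub_self, u_zero, one_mul]
    have h1 : ∑ j ∈ range i, f γ m (i - 1 - j) * c j =
        ∑ l ∈ range i, u γ m (i - l) * yy γ m c l := by
      have h2 : ∀ j ∈ range i, f γ m (i - 1 - j) * c j =
          ∑ l ∈ range (j + 1), f γ m (i - 1 - j) * (u γ m (j - l) * yy γ m c l) := by
        intro j hj
        rw [← mul_sum, ← ih j (mem_range.mp hj)]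
      rw [sum_congr rfl h2]
      rw [sum_comm' (s' := fun l => Ico l i) (t' := range i)]
      · apply sum_congr rfl
        intro l hl
        have hl' := mem_range.mp hl
        obtain ⟨d, rfl⟩ : ∃ d, i = l + (d + 1) := ⟨i - l - 1, by omega⟩
        have e1 : l + (d + 1) - l = d + 1 := by omega
        rw [e1, u_succ, sum_Ico_eq_sum_range, sum_mul]
        have e2 : l + (d + 1) - l = d + 1 := by omega
        rw [e2]
        apply sum_congr rfl
        intro k hk
        have := mem_range.mp hk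
        have e3 : l + (d + 1) - 1 - (l + k) = d - k := by omega
        have e4 : l + k - l = k := by omega
        rw [e3, e4]
        ring
      · intro x y
        simp only [mem_range, mem_Ico]
        omega
    have h3 : yy γ m c i = c i - ∑ j ∈ range i, f γ m (i - 1 - j) * c j := rfl
    rw [h3, h1]
    ring

theorem yco_trunc_lt {n N i : ℕ} (hN : N ≤ n) (hi : i < N) (c : ℕ → ℝ) :
    yco n (vv γ m) (trunc N c) i = yy γ m c i := by
  rw [yco_lt (by omega)]
  unfold yy trunc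
  rw [if_pos hi]
  congr 1
  apply sum_congr rfl
  intro j hj
  have := mem_range.mp hj
  rw [if_pos (by omega)]

theorem yco_trunc_ge (h0 : 0 < γ) (h1 : γ < 1) {n N i : ℕ} (hN : N ≤ n) (hi : N ≤ i)
    (c : ℕ → ℝ) :
    |yco n (vv γ m) (trunc N c) i| ≤
      ∑ l ∈ range N, |yy γ m c l| * H γ m (N - 1 - l) (i - N) := by
  have h2 : |yco n (vv γ m) (trunc N c) i| ≤
      ∑ j ∈ range N, ∑ l ∈ range (j + 1), f γ m (i - 1 - j) * (u γ m (j - l) * |yy γ m c l|) := by
    unfold yco trunc vv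
    rw [← sum_range_add_sum_Ico _ hN]
    have h3 : ∑ j ∈ Ico N n, (if i = j then (if j < N then c j else 0)
        else if j < i ∧ i < j + n then -f γ m (i - j - 1) * (if j < N then c j else 0) else 0) = 0 := by
      apply sum_eq_zero
      intro j hj
      have := mem_Ico.mp hj
      rw [if_neg (by omega : ¬ j < N)]
      simp
    rw [h3, add_zero]
    refine (abs_sum_le_sum_abs _ _).trans ?_
    apply sum_le_sum
    intro j hj
    have hj' := mem_range.mp hj
    rw [if_neg (by omega), if_pos hj', ← mul_sum]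
    have hf := f_nonneg (m := m) h0 h1 (i - 1 - j)
    have h4 : |c j| ≤ ∑ l ∈ range (j + 1), u γ m (j - l) * |yy γ m c l| := by
      conv_lhs => rw [inv_y (γ := γ) (m := m) c j]
      refine (abs_sum_le_sum_abs _ _).trans ?_
      apply sum_le_sum
      intro l _
      rw [abs_mul, abs_of_nonneg (u_nonneg h0 h1 _)]
    have h5 : 0 ≤ ∑ l ∈ range (j + 1), u γ m (j - l) * |yy γ m c l| :=
      (abs_nonneg _).trans h4
    split_ifs with h
    · rw [abs_mul, abs_neg]
      have e : i - j - 1 = i - 1 - j := by omega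
      rw [e, abs_of_nonneg hf]
      exact mul_le_mul_of_nonneg_left h4 hf
    · rw [abs_zero]
      exact mul_nonneg hf h5
  refine h2.trans (le_of_eq ?_)
  rw [sum_comm' (s' := fun l => Ico l N) (t' := range N)]
  · apply sum_congr rfl
    intro l hl
    have hl' := mem_range.mp hl
    unfold H
    rw [sum_Ico_eq_sum_range, mul_sum]
    have e2 : N - 1 - l + 1 = N - l := by omega
    rw [e2]
    apply sum_congr rfl
    intro k hk
    have := mem_range.mp hk
    have e3 : i - 1 - (l + k) = N - 1 - l + (i - N) - k := by omega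
    have e4 : l + k - l = k := by omega
    rw [e3, e4]
    ring
  · intro x y
    simp only [mem_range, mem_Ico]
    omega

theorem trunc_bound (h0 : 0 < γ) (h1 : γ < 1) (hm : 1 ≤ m) {q : ℝ} (hq : 1 < q) {C : ℝ}
    (hC : ∀ (A B : ℕ) (y : ℕ → ℝ), (∀ a, 0 ≤ y a) →
      ∑ b ∈ range B, (∑ a ∈ range A, K γ a b * y a) ^ q ≤ C * ∑ a ∈ range A, y a ^ q)
    (n : ℕ) (c : ℕ → ℝ) (N : ℕ) (hN : N ≤ n) (hC0 : 0 ≤ C) :
    MN q n (vv γ m) (trunc N c) ≤ (1 + C) * MN q n (vv γ m) c := by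
  have hq0 : 0 < q := by linarith
  have hb : ∑ i ∈ range N, |yy γ m c i| ^ q ≤ MN q n (vv γ m) c := by
    unfold MN
    calc ∑ i ∈ range N, |yy γ m c i| ^ q = ∑ i ∈ range N, |yco n (vv γ m) c i| ^ q := by
          apply sum_congr rfl
          intro i hi
          have := mem_range.mp hi
          rw [yco_lt (by omega)]
      _ ≤ _ := by
          apply sum_le_sum_of_subset_of_nonneg
          · intro x hx
            rw [mem_range] at hx ⊢
            omega
          · intro i _ _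
            positivity
  have ha : MN q n (vv γ m) (trunc N c) ≤ (1 + C) * ∑ i ∈ range N, |yy γ m c i| ^ q := by
    unfold MN
    rw [← sum_range_add_sum_Ico _ (by omega : N ≤ 2 * n), add_mul, one_mul]
    apply add_le_add
    · apply le_of_eq
      apply sum_congr rfl
      intro i hi
      rw [yco_trunc_lt hN (mem_range.mp hi)]
    · rw [sum_Ico_eq_sum_range]
      have h2 := hC N (2 * n - N) (fun a => |yy γ m c (N - 1 - a)|) (fun a => abs_nonneg _)
      have h3 : ∑ a ∈ range N, |yy γ m c (N - 1 - a)| ^ q = ∑ a ∈ range N, |yy γ m c a| ^ q :=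
        sum_range_reflect (fun a => |yy γ m c a| ^ q) N
      rw [h3] at h2
      refine le_trans ?_ h2
      apply sum_le_sum
      intro b _
      apply Real.rpow_le_rpow (abs_nonneg _) _ hq0.le
      refine (yco_trunc_ge h0 h1 hN (by omega) c).trans ?_
      rw [← sum_range_reflect]
      apply sum_le_sum
      intro a ha
      have ha' := mem_range.mp ha
      have e1 : N - 1 - (N - 1 - a) = a := by omega
      have e2 : N + b - N = b := by omega
      rw [e1, e2, mul_comm]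
      exact mul_le_mul_of_nonneg_right (H_le_K h0 h1 hm a b) (abs_nonneg _)
  refine ha.trans ?_
  exact mul_le_mul_of_nonneg_left hb (by linarith)

theorem yco_one_lt (h0 : 0 < γ) (h1 : γ < 1) {n i : ℕ} (hi : i < n) :
    yco n (vv γ m) (fun _ => 1) i = G γ m i := by
  rw [yco_lt hi]
  unfold yy
  simp only [mul_one]
  have h2 := sum_range_reflect (fun j => f γ m (0 + j)) i
  simp only [zero_add] at h2
  rw [h2]
  have h3 := sum_f_le (m := m) h0 h1 0 i
  simp only [zero_add] at h3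
  rw [h3, G_zero]
  ring

theorem yco_one_ge (h0 : 0 < γ) (h1 : γ < 1) {n i : ℕ} (hi : n ≤ i) (hi2 : i < 2 * n) :
    |yco n (vv γ m) (fun _ => 1) i| ≤ G γ m (i - n) := by
  unfold yco vv
  simp only [mul_one]
  have h2 : ∑ j ∈ range n, (if i = j then (1:ℝ)
      else if j < i ∧ i < j + n then -f γ m (i - j - 1) else 0) =
      - ∑ j ∈ Ico (i - n + 1) n, f γ m (i - j - 1) := by
    rw [← sum_range_add_sum_Ico _ (by omega : i - n + 1 ≤ n)]
    have h3 : ∑ j ∈ range (i - n + 1), (if i = j then (1:ℝ)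
      else if j < i ∧ i < j + n then -f γ m (i - j - 1) else 0) = 0 := by
      apply sum_eq_zero
      intro j hj
      have := mem_range.mp hj
      rw [if_neg (by omega), if_neg (by omega)]
    rw [h3, zero_add, ← sum_neg_distrib]
    apply sum_congr rfl
    intro j hj
    have := mem_Ico.mp hj
    rw [if_neg (by omega), if_pos (by omega)]
  rw [h2, abs_neg, sum_Ico_eq_sum_range]
  have h4 : ∑ k ∈ range (n - (i - n + 1)), f γ m (i - (i - n + 1 + k) - 1) =
      ∑ k ∈ range (n - (i - n + 1)), f γ m (i - n + k) := by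
    rw [← sum_range_reflect (fun k => f γ m (i - n + k))]
    apply sum_congr rfl
    intro k hk
    have := mem_range.mp hk
    congr 1
    omega
  rw [h4, sum_f_le h0 h1]
  have h5 := G_anti (m := m) h0 h1 (by omega : i - n ≤ i - n + (n - (i - n + 1)))
  have h6 := G_pos (m := m) h0 h1 (i - n + (n - (i - n + 1)))
  rw [abs_of_nonneg (by linarith)]
  linarith

theorem MN_one (h0 : 0 < γ) (h1 : γ < 1) {q : ℝ} (hq : 1 < q) (hγq : γ * q < 1) (n : ℕ) :
    MN q n (vv γ m) (fun _ => 1) ≤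
      2 * ((m : ℝ) + 1) ^ (γ * q) / (1 - γ * q) * (n:ℝ) ^ (1 - γ * q) := by
  have hq0 : 0 < q := by linarith
  have h2 : MN q n (vv γ m) (fun _ => 1) ≤ 2 * ∑ i ∈ range n, G γ m i ^ q := by
    unfold MN
    rw [← sum_range_add_sum_Ico _ (by omega : n ≤ 2 * n), two_mul (∑ i ∈ range n, G γ m i ^ q)]
    apply add_le_add
    · apply le_of_eq
      apply sum_congr rfl
      intro i hi
      rw [yco_one_lt h0 h1 (mem_range.mp hi), abs_of_pos (G_pos h0 h1 _)]
    · rw [sum_Ico_eq_sum_range]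
      have e : 2 * n - n = n := by omega
      rw [e]
      apply sum_le_sum
      intro i hi
      have := mem_range.mp hi
      have h3 := yco_one_ge (m := m) h0 h1 (by omega : n ≤ n + i) (by omega)
      have e2 : n + i - n = i := by omega
      rw [e2] at h3
      exact Real.rpow_le_rpow (abs_nonneg _) h3 hq0.le
  refine h2.trans ?_
  have h3 : ∀ i ∈ range n, G γ m i ^ q ≤ ((m : ℝ) + 1) ^ (γ * q) * ((i:ℝ) + 1) ^ (-(γ * q)) := by
    intro i _
    have hu := G_upper (m := m) h0 h1 i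
    have hG := G_pos (m := m) h0 h1 i
    have hmi : ((i:ℝ) + 1) ^ γ ≤ ((m : ℝ) + i + 1) ^ γ := by
      apply Real.rpow_le_rpow (by positivity) _ h0.le
      have : (0:ℝ) ≤ m := Nat.cast_nonneg m
      linarith
    have h4 : G γ m i * ((i:ℝ) + 1) ^ γ ≤ ((m : ℝ) + 1) ^ γ :=
      (mul_le_mul_of_nonneg_left hmi hG.le).trans hu
    have h5 := Real.rpow_le_rpow (by positivity) h4 hq0.le
    rw [Real.mul_rpow hG.le (by positivity), ← Real.rpow_mul (by positivity),
      ← Real.rpow_mul (by positivity)] at h5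
    rw [Real.rpow_neg (by positivity), ← div_eq_mul_inv, le_div_iff₀ (by positivity)]
    exact h5
  have h4 := sum_le_sum h3
  rw [← mul_sum] at h4
  have h5 := ps1 (by positivity : (0:ℝ) ≤ γ * q) hγq n
  calc 2 * ∑ i ∈ range n, G γ m i ^ q
      ≤ 2 * (((m : ℝ) + 1) ^ (γ * q) * ∑ i ∈ range n, ((i:ℝ) + 1) ^ (-(γ * q))) := by linarith
    _ ≤ 2 * (((m : ℝ) + 1) ^ (γ * q) * ((n:ℝ) ^ (1 - γ * q) / (1 - γ * q))) := by
        gcongr
    _ = _ := by ring

theorem vsum (h0 : 0 < γ) (h1 : γ < 1) {q : ℝ} (hq : 1 < q) (n : ℕ) :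
    ∑ k ∈ Ico 1 n, |vv γ m k| ^ q ≤ (1 / ((m:ℝ) + 1)) ^ (q - 1) := by
  rw [sum_Ico_eq_sum_range]
  unfold vv
  have h2 : ∀ k ∈ range (n - 1), |(-f γ m (1 + k - 1))| ^ q ≤
      (1 / ((m:ℝ) + 1)) ^ (q - 1) * f γ m k := by
    intro k _
    have e : 1 + k - 1 = k := by omega
    have hf := f_nonneg (m := m) h0 h1 k
    rw [e, abs_neg, abs_of_nonneg hf]
    by_cases hz : f γ m k = 0
    · rw [hz, Real.zero_rpow (by linarith), mul_zero]
    · have hf' : 0 < f γ m k := lt_of_le_of_ne hf (Ne.symm hz)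
      have e2 : f γ m k ^ q = f γ m k ^ (q - 1) * f γ m k := by
        rw [← Real.rpow_add_one hz]
        congr 1
        ring
      rw [e2]
      apply mul_le_mul_of_nonneg_right _ hf
      apply Real.rpow_le_rpow hf _ (by linarith)
      refine (f_anti h0 h1 (Nat.zero_le k)).trans ?_
      unfold f
      rw [G_zero]
      push_cast
      rw [mul_one, add_zero]
      have : (0:ℝ) ≤ m := Nat.cast_nonneg m
      gcongr
  refine (sum_le_sum h2).trans ?_
  rw [← mul_sum]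
  have h3 := sum_f_le (m := m) h0 h1 0 (n - 1)
  simp only [zero_add] at h3
  rw [h3, G_zero]
  have h4 := G_pos (m := m) h0 h1 (n - 1)
  have h5 : 0 ≤ (1 / ((m:ℝ) + 1)) ^ (q - 1) := by positivity
  nlinarith

end main

theorem t_main : S_main := by
  intro q hq1 hq2
  have hq0 : 0 < q := by linarith
  -- choose γ
  obtain ⟨γ, hγ1, hγ2⟩ : ∃ γ : ℝ, 2 / q - 1 < γ ∧ γ < 1 / q := by
    apply _root_.exists_between
    rw [div_sub_one hq0.ne', div_lt_div_iff_of_pos_right hq0]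
    linarith
  have hγ0 : 0 < γ := by
    have : 0 < 2 / q - 1 := by
      rw [div_sub_one hq0.ne']
      apply div_pos <;> linarith
    linarith
  have hγq : γ * q < 1 := by rwa [lt_div_iff₀ hq0] at hγ2
  have hγ1' : γ < 1 := by nlinarith
  obtain ⟨τ, hτ1, hτ2⟩ : ∃ τ : ℝ, γ < τ ∧ τ < min 1 ((1 - γ) / (q - 1)) := by
    apply _root_.exists_between
    apply lt_min hγ1'
    rw [lt_div_iff₀ (by linarith)]
    nlinarith
  have hτ3 : τ < 1 := lt_of_lt_of_le hτ2 (min_le_left _ _)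
  have hτ4 : γ + τ * (q - 1) < 1 := by
    have : τ < (1 - γ) / (q - 1) := lt_of_lt_of_le hτ2 (min_le_right _ _)
    rw [lt_div_iff₀ (by linarith)] at this
    linarith
  set C : ℝ := ((1 / (1 - τ) + 4 * (1 + 1 / (τ - γ))) ^ (q - 1) *
        (4 / (1 - (γ + τ * (q - 1))) + (1 + 1 / (τ * (q - 1))))) with hCdef
  have hC0 : 0 ≤ C := by
    have : 0 < 1 - τ := by linarith
    have : 0 < τ - γ := by linarith
    have : 0 < 1 - (γ + τ * (q - 1)) := by linarith
    have : 0 < τ * (q - 1) := mul_pos (by linarith) (by linarith)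
    positivity
  refine ⟨1 + C, by linarith, ?_⟩
  intro δ hδ
  obtain ⟨m, hm⟩ := exists_nat_one_div_lt (Real.rpow_pos_of_pos hδ (1 / (q - 1)))
  refine ⟨vv γ (m + 1), ?_, ?_, ?_⟩
  · intro n
    refine (vsum hγ0 hγ1' hq1 n).trans ?_
    calc (1 / (((m + 1 : ℕ):ℝ) + 1)) ^ (q - 1) ≤ (δ ^ (1 / (q - 1))) ^ (q - 1) := by
          apply Real.rpow_le_rpow (by positivity) _ (by linarith)
          refine le_trans ?_ hm.le
          apply one_div_le_one_div_of_le (by positivity)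
          push_cast
          linarith
      _ = δ := by
          rw [← Real.rpow_mul hδ.le, one_div_mul_cancel (by linarith), Real.rpow_one]
  · intro n c N hN
    exact trunc_bound hγ0 hγ1' (by omega) hq1
      (fun A B y hy => schur hq1 hγ0 hτ1 hτ3 hτ4 A B y hy) n c N hN hC0
  · set D : ℝ := 2 * (((m + 1 : ℕ) : ℝ) + 1) ^ (γ * q) / (1 - γ * q) with hD
    have hlim : Tendsto (fun n : ℕ => D * (n:ℝ) ^ (-(q + γ * q - 2))) atTop (𝓝 (D * 0)) := by
      apply Tendsto.const_mul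
      have hpos : 0 < q + γ * q - 2 := by
        have h5 : 2 / q < 1 + γ := by linarith
        rw [div_lt_iff₀ hq0] at h5
        linarith
      exact (tendsto_rpow_neg_atTop hpos).comp tendsto_natCast_atTop_atTop
    rw [mul_zero] at hlim
    refine tendsto_of_tendsto_of_tendsto_of_le_of_le' tendsto_const_nhds hlim ?_ ?_
    · filter_upwards with n
      apply mul_nonneg (by positivity)
      unfold MN
      exact sum_nonneg fun i _ => by positivity
    · filter_upwards [eventually_ge_atTop 1] with n hn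
      have hn' : (0:ℝ) < n := by exact_mod_cast (by omega)
      calc (n:ℝ) ^ (1 - q) * MN q n (vv γ (m + 1)) (fun _ => 1)
          ≤ (n:ℝ) ^ (1 - q) * (D * (n:ℝ) ^ (1 - γ * q)) :=
            mul_le_mul_of_nonneg_left (MN_one hγ0 hγ1' hq1 hγq n) (by positivity)
        _ = D * ((n:ℝ) ^ (1 - q) * (n:ℝ) ^ (1 - γ * q)) := by ring
        _ = _ := by
            rw [← Real.rpow_add hn']
            congr 2
            ring

end Pool.Agent.W688.TBM
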