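import Pool.Agent.W688.TB.Riesz
import Pool.Agent.W688.TB.Main

open scoped BigOperators Topology
open Filter Finset

namespace Pool.Agent.W688.TBW

open Pool.Agent.W692.TB Pool.Agent.W688.TBR

theorem AD_eq (n : ℕ) (c : ℕ → ℝ) (D : ℤ) :
    AD n c D = Complex.exp (Complex.I * ((-(Real.pi * D ^ 2 / n) : ℝ) : ℂ)) *
      ∑ j ∈ range n, (if 0 ≤ (j:ℤ) - D ∧ (j:ℤ) - D < n then (c j : ℂ) * W n (j * D) else 0) := by
  unfold AD
  rw [mul_sum]
  apply sum_congr rfl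
  intro j hj
  split_ifs with h
  · rw [sum_eq_single_of_mem ((j:ℤ) - D).toNat (by rw [Finset.mem_range]; omega)]
    · rw [if_pos (by omega)]
      have hr : ((((j:ℤ) - D).toNat : ℕ) : ℂ) = (j:ℂ) - D := by
        have : ((((j:ℤ) - D).toNat : ℕ) : ℤ) = j - D := by omega
        have h2 := congrArg (fun z : ℤ => (z:ℂ)) this
        push_cast at h2
        exact_mod_cast h2
      rw [hr, mul_left_comm]
      congr 1
      unfold W
      rw [← Complex.exp_add]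
      congr 1
      push_cast
      ring
    · intro r hr hne
      rw [if_neg (by omega)]
  · rw [mul_zero]
    apply sum_eq_zero
    intro r hr
    have := Finset.mem_range.mp hr
    rw [if_neg (by omega)]

theorem norm_AD (n : ℕ) (c : ℕ → ℝ) (D : ℤ) :
    ‖AD n c D‖ =
      ‖∑ j ∈ range n, (if 0 ≤ (j:ℤ) - D ∧ (j:ℤ) - D < n then (c j : ℂ) * W n (j * D) else 0)‖ := by
  rw [AD_eq, norm_mul]
  have : ‖Complex.exp (Complex.I * ((-(Real.pi * D ^ 2 / n) : ℝ) : ℂ))‖ = 1 := by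
    rw [mul_comm, Complex.norm_exp_ofReal_mul_I]
  rw [this, one_mul]

theorem AD_pos {n : ℕ} (c : ℕ → ℝ) {E : ℕ} (hE : E < n) :
    ‖AD n c (E:ℤ)‖ = ‖P n (fun j => (c j : ℂ)) n E - P n (fun j => (c j : ℂ)) E E‖ := by
  rw [norm_AD]
  congr 1
  unfold P
  rw [← sum_range_add_sum_Ico _ hE.le, ← sum_range_add_sum_Ico (fun j => (c j : ℂ) * W n (j * E)) hE.le,
    add_sub_cancel_left]
  have h1 : ∑ j ∈ range E, (if 0 ≤ (j:ℤ) - E ∧ (j:ℤ) - E < n then (c j : ℂ) * W n (j * E) else 0) = 0 := by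
    apply sum_eq_zero
    intro j hj
    have := Finset.mem_range.mp hj
    rw [if_neg (by omega)]
  rw [h1, zero_add]
  apply sum_congr rfl
  intro j hj
  have := Finset.mem_Ico.mp hj
  rw [if_pos (by omega)]

theorem W_per {n : ℕ} (hn : 0 < n) (j : ℕ) (x : ℤ) : W n (j * (x - n)) = W n (j * x) := by
  have : W n (x - n) = W n x := by
    have h := W_add n (x - n) n
    rw [W_n hn, mul_one, sub_add_cancel] at h
    exact h.symm
  rw [W_nat_mul, W_nat_mul, this]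

theorem AD_neg {n : ℕ} (c : ℕ → ℝ) {E : ℕ} (hE : E < n) :
    ‖AD n c ((E:ℤ) - n)‖ = ‖P n (fun j => (c j : ℂ)) E E‖ := by
  rw [norm_AD]
  congr 1
  unfold P
  rw [← sum_range_add_sum_Ico _ hE.le]
  have h1 : ∑ j ∈ Ico E n, (if 0 ≤ (j:ℤ) - (E - n) ∧ (j:ℤ) - (E - n) < n then
      (c j : ℂ) * W n (j * (E - n)) else 0) = 0 := by
    apply sum_eq_zero
    intro j hj
    have := Finset.mem_Ico.mp hj
    rw [if_neg (by omega)]
  rw [h1, add_zero]
  apply sum_congr rfl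
  intro j hj
  have := Finset.mem_range.mp hj
  rw [if_pos (by omega), W_per (by omega)]

theorem sum_Ioo (n : ℕ) (g : ℤ → ℝ) :
    ∑ D ∈ (Ioo (-(n:ℤ)) n).erase 0, g D =
      ∑ E ∈ Ico 1 n, (g (E:ℤ) + g ((E:ℤ) - n)) := by
  have h1 : (Ioo (-(n:ℤ)) n).erase 0 = (Ico 1 n).map Nat.castEmbedding ∪
      ((Ico 1 n).map Nat.castEmbedding).map (addRightEmbedding (-(n:ℤ))) := by
    ext x
    simp only [mem_erase, Finset.mem_Ioo, Finset.mem_union, Finset.mem_map, Finset.mem_Ico,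
      Nat.castEmbedding_apply, addRightEmbedding_apply]
    constructor
    · rintro ⟨h0, h2, h3⟩
      rcases lt_or_gt_of_ne h0 with h | h
      · right
        refine ⟨x + n, ⟨(x + n).toNat, by omega, by omega⟩, by omega⟩
      · left
        exact ⟨x.toNat, by omega, by omega⟩
    · rintro (⟨a, ha, rfl⟩ | ⟨_, ⟨a, ha, rfl⟩, rfl⟩)
      · omega
      · omega
  rw [h1, sum_union, sum_map, sum_map, sum_map, ← sum_add_distrib]
  · apply sum_congr rfl
    intro E _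
    simp only [Nat.castEmbedding_apply, addRightEmbedding_apply]
    rw [← sub_eq_add_neg]
  · rw [Finset.disjoint_left]
    intro x hx hx2
    simp only [Finset.mem_map, Finset.mem_Ico, Nat.castEmbedding_apply, addRightEmbedding_apply] at hx hx2
    obtain ⟨a, ha, rfl⟩ := hx
    obtain ⟨_, ⟨b, hb, rfl⟩, hb2⟩ := hx2
    omega

theorem WN_eq {q : ℝ} (hq : 0 < q) {n : ℕ} (hn : 0 < n) (c : ℕ → ℝ) :
    WN q n c = ∑ E ∈ range n, (‖P n (fun j => (c j : ℂ)) n E - P n (fun j => (c j : ℂ)) E E‖ ^ q +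
      ‖P n (fun j => (c j : ℂ)) E E‖ ^ q) := by
  unfold WN
  have h0 : (0:ℤ) ∈ Ioo (-(n:ℤ)) n := by
    rw [Finset.mem_Ioo]; omega
  rw [← add_sum_erase _ _ h0, sum_Ioo n (fun D => ‖AD n c D‖ ^ q), range_eq_Ico,
    sum_eq_sum_Ico_succ_bot hn]
  congr 1
  · have h1 := AD_pos c hn
    push_cast at h1
    rw [h1]
    simp [P, Real.zero_rpow hq.ne']
  · apply sum_congr rfl
    intro E hE
    have := Finset.mem_Ico.mp hE
    rw [AD_pos c (by omega), AD_neg c (by omega)]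

theorem P_trunc (n : ℕ) (c : ℕ → ℝ) (N M : ℕ) (D : ℤ) :
    P n (fun j => ((trunc N c j : ℝ) : ℂ)) M D = P n (fun j => (c j : ℂ)) (min M N) D := by
  unfold P trunc
  rw [← sum_range_add_sum_Ico _ (min_le_left M N)]
  have h1 : ∑ j ∈ Ico (min M N) M, (((if j < N then c j else 0 : ℝ)) : ℂ) * W n (j * D) = 0 := by
    apply sum_eq_zero
    intro j hj
    have := Finset.mem_Ico.mp hj
    rw [if_neg (by omega)]
    simp
  rw [h1, add_zero]
  apply sum_congr rfl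
  intro j hj
  have := Finset.mem_range.mp hj
  beta_reduce
  rw [if_pos (by omega)]

open Pool.Agent.Helper576.LpMult in
theorem w_trunc (hR : S_riesz) {q : ℝ} (hq : 1 < q) : ∃ C : ℝ, 0 < C ∧
    ∀ (n : ℕ) (c : ℕ → ℝ) (N : ℕ), N ≤ n → WN q n (trunc N c) ≤ C * WN q n c := by
  obtain ⟨C, hC, hR⟩ := hR q hq
  have hq0 : 0 < q := by linarith
  refine ⟨(2 ^ q + 1) * (2 ^ q * C + 1), by positivity, ?_⟩
  intro n c N hN
  rcases Nat.eq_zero_or_pos n with hn | hn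
  · subst hn
    simp [WN]
  set c' : ℕ → ℂ := fun j => (c j : ℂ) with hc'
  have hR' : ∑ E ∈ range n, ‖P n c' N E‖ ^ q ≤ C * ∑ E ∈ range n, ‖P n c' n E‖ ^ q := by
    have h := hR n c' N hN
    have e : ∀ (M : ℕ) (D : ℕ), P n c' M (D:ℤ) = ∑ j ∈ range M,
        c' j * Complex.exp (Complex.I * (2 * Real.pi * j * D / n)) := by
      intro M D
      unfold P W
      apply sum_congr rfl
      intro j _
      congr 2
      push_cast
      ring
    simp only [e]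
    exact h
  rw [WN_eq hq0 hn, WN_eq hq0 hn]
  set S : ℝ := ∑ E ∈ range n, (‖P n c' n E - P n c' E E‖ ^ q + ‖P n c' E E‖ ^ q) with hS
  have h1 : ∑ E ∈ range n, ‖P n c' n E‖ ^ q ≤ 2 ^ q * S := by
    rw [hS, mul_sum]
    apply sum_le_sum
    intro E _
    have e1 : P n c' n E = (P n c' n E - P n c' E E) + P n c' E E := by ring
    calc ‖P n c' n E‖ ^ q = ‖(P n c' n E - P n c' E E) + P n c' E E‖ ^ q := by rw [← e1]
      _ ≤ (‖P n c' n E - P n c' E E‖ + ‖P n c' E E‖) ^ q :=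
          Real.rpow_le_rpow (norm_nonneg _) (norm_add_le _ _) hq0.le
      _ ≤ _ := add_rpow_le (norm_nonneg _) (norm_nonneg _) hq0.le
  have h2 : ∑ E ∈ range n, ‖P n c' E E‖ ^ q ≤ S := by
    apply sum_le_sum
    intro E _
    have : 0 ≤ ‖P n c' n E - P n c' E E‖ ^ q := by positivity
    linarith
  have h3 : ∑ E ∈ range n, (‖P n (fun j => ((trunc N c j : ℝ) : ℂ)) n E -
      P n (fun j => ((trunc N c j : ℝ) : ℂ)) E E‖ ^ q +
      ‖P n (fun j => ((trunc N c j : ℝ) : ℂ)) E E‖ ^ q) ≤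
      ∑ E ∈ range n, (2 ^ q + 1) * (‖P n c' N E‖ ^ q + ‖P n c' E E‖ ^ q) := by
    apply sum_le_sum
    intro E hE
    have hE' := Finset.mem_range.mp hE
    rw [P_trunc, P_trunc, min_eq_right hN]
    have h2q : (0:ℝ) ≤ 2 ^ q := by positivity
    have hA : 0 ≤ ‖P n c' N E‖ ^ q := by positivity
    have hB : 0 ≤ ‖P n c' E E‖ ^ q := by positivity
    rcases le_total E N with h | h
    · rw [min_eq_left h]
      have h4 : ‖P n c' N E - P n c' E E‖ ^ q ≤ 2 ^ q * (‖P n c' N E‖ ^ q + ‖P n c' E E‖ ^ q) :=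
        (Real.rpow_le_rpow (norm_nonneg _) (norm_sub_le _ _) hq0.le).trans
          (add_rpow_le (norm_nonneg _) (norm_nonneg _) hq0.le)
      simp only [hc'] at *
      nlinarith
    · rw [min_eq_right h, sub_self, norm_zero, Real.zero_rpow hq0.ne', zero_add]
      simp only [hc'] at *
      nlinarith [mul_nonneg h2q hA, mul_nonneg h2q hB]
  refine h3.trans ?_
  rw [← mul_sum, sum_add_distrib, mul_assoc]
  apply mul_le_mul_of_nonneg_left _ (by positivity)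
  calc ∑ E ∈ range n, ‖P n c' N E‖ ^ q + ∑ E ∈ range n, ‖P n c' E E‖ ^ q
      ≤ C * (2 ^ q * S) + S := by
        apply add_le_add _ h2
        exact hR'.trans (mul_le_mul_of_nonneg_left h1 hC.le)
    _ = _ := by ring

/-- the flat sums -/
theorem flat_n {n : ℕ} (hn : 0 < n) {E : ℕ} (h1 : 1 ≤ E) (h2 : E < n) :
    P n (fun _ => 1) n E = 0 := by
  unfold P
  have hne := W_ne_one hn (x := (E:ℤ)) (by omega) (by rw [abs_of_pos (by omega)]; omega)
  have e1 : ∀ j ∈ range n, 1 * W n (j * E) = W n E ^ j := by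
    intro j _
    rw [one_mul, W_nat_mul]
  rw [sum_congr rfl e1, geom_sum_eq hne, W_pow_n hn, sub_self, zero_div]

theorem flat_low {n : ℕ} (hn : 0 < n) {E : ℕ} (h1 : 1 ≤ E) (h2 : E < n) :
    4 * ((min E (n - E) : ℕ) : ℝ) / n ≤ ‖W n E - 1‖ := by
  have hn' : (0:ℝ) < n := by exact_mod_cast hn
  have hpi := Real.pi_pos
  unfold W
  rw [Complex.norm_exp_I_mul_ofReal_sub_one, Real.norm_eq_abs, abs_mul, abs_two]
  have e0 : (2 * Real.pi * ((E:ℤ):ℝ) / n : ℝ) / 2 = Real.pi * E / n := by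
    push_cast; ring
  rw [e0]
  have key : ∀ m : ℕ, 2 * m ≤ n → 2 * (m:ℝ) / n ≤ Real.sin (Real.pi * m / n) := by
    intro m hm
    have hm' : 2 * (m:ℝ) ≤ n := by exact_mod_cast hm
    have h3 := Real.mul_le_sin (x := Real.pi * m / n) (by positivity) (by
      rw [div_le_div_iff₀ hn' (by norm_num)]
      nlinarith)
    have e1 : 2 / Real.pi * (Real.pi * m / n) = 2 * (m:ℝ) / n := by
      field_simp
    rwa [e1] at h3
  have h4 : 2 * ((min E (n - E) : ℕ) : ℝ) / n ≤ Real.sin (Real.pi * E / n) := by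
    rcases le_total (2 * E) n with h | h
    · rw [min_eq_left (by omega)]
      exact key E h
    · rw [min_eq_right (by omega)]
      have h5 := key (n - E) (by omega)
      have e2 : Real.pi * ((n - E : ℕ) : ℝ) / n = Real.pi - Real.pi * E / n := by
        rw [Nat.cast_sub h2.le]
        field_simp
      rw [e2, Real.sin_pi_sub] at h5
      exact h5
  calc 4 * ((min E (n - E) : ℕ) : ℝ) / n = 2 * (2 * ((min E (n - E) : ℕ) : ℝ) / n) := by ring
    _ ≤ 2 * Real.sin (Real.pi * E / n) := by linarith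
    _ ≤ 2 * |Real.sin (Real.pi * E / n)| := by
        have := le_abs_self (Real.sin (Real.pi * E / n))
        linarith

theorem flat_b1 {n : ℕ} (hn : 0 < n) {E : ℕ} (h1 : 1 ≤ E) (h2 : E < n) :
    ‖P n (fun _ => 1) E E‖ ≤ n / ((min E (n - E) : ℕ) : ℝ) := by
  have hn' : (0:ℝ) < n := by exact_mod_cast hn
  have hlow := flat_low hn h1 h2
  have hm : (0:ℝ) < ((min E (n - E) : ℕ) : ℝ) := by
    have : 0 < min E (n - E) := by omega
    exact_mod_cast this
  have hne := W_ne_one hn (x := (E:ℤ)) (by omega) (by rw [abs_of_pos (by omega)]; omega)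
  unfold P
  have e1 : ∀ j ∈ range E, 1 * W n (j * E) = W n E ^ j := by
    intro j _
    rw [one_mul, W_nat_mul]
  rw [sum_congr rfl e1, geom_sum_eq hne, norm_div]
  have h3 : ‖W n E ^ E - 1‖ ≤ 2 := by
    refine (norm_sub_le _ _).trans ?_
    rw [norm_pow, W_norm, one_pow, norm_one]
    norm_num
  have hpos : 0 < ‖W n (E:ℤ) - 1‖ := lt_of_lt_of_le (by positivity) hlow
  rw [div_le_div_iff₀ hpos hm]
  rw [div_le_iff₀ hn'] at hlow
  nlinarith

theorem flat_b2 {n : ℕ} (hn : 0 < n) {E : ℕ} (h1 : 1 ≤ E) (h2 : E < n) :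
    ‖P n (fun _ => 1) E E‖ ≤ ((min E (n - E) : ℕ) : ℝ) := by
  have hs : ∀ s : Finset ℕ, ‖∑ j ∈ s, 1 * W n (j * E)‖ ≤ s.card := by
    intro s
    refine (norm_sum_le _ _).trans ?_
    rw [sum_congr rfl (g := fun _ => (1:ℝ)) (fun j _ => by rw [one_mul, W_norm])]
    simp
  rcases le_total E (n - E) with h | h
  · rw [min_eq_left h]
    have := hs (range E)
    rw [card_range] at this
    exact this
  · rw [min_eq_right h]
    have h3 := flat_n hn h1 h2
    unfold P at h3 ⊢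
    rw [← sum_range_add_sum_Ico _ h2.le] at h3
    have h4 : ∑ j ∈ range E, 1 * W n (j * E) = - ∑ j ∈ Ico E n, 1 * W n (j * E) :=
      eq_neg_of_add_eq_zero_left h3
    rw [h4, norm_neg]
    have := hs (Ico E n)
    rw [Nat.card_Ico] at this
    exact this

theorem flat_pow {q τ : ℝ} (hτ0 : 0 < τ) (hτq : τ ≤ q) {n : ℕ} (hn : 0 < n) {E : ℕ}
    (h1 : 1 ≤ E) (h2 : E < n) :
    ‖P n (fun _ => 1) E E‖ ^ q ≤ (n:ℝ) ^ ((q - τ) / 2 + τ) *
      ((E:ℝ) ^ (-τ) + ((n - E : ℕ) : ℝ) ^ (-τ)) := by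
  have hn' : (0:ℝ) < n := by exact_mod_cast hn
  have hm : (0:ℝ) < ((min E (n - E) : ℕ) : ℝ) := by
    have : 0 < min E (n - E) := by omega
    exact_mod_cast this
  have hb1 := flat_b1 hn h1 h2
  have hb2 := flat_b2 hn h1 h2
  set b := ‖P n (fun _ => 1) E E‖ with hb
  set m : ℝ := ((min E (n - E) : ℕ) : ℝ) with hmdef
  have hb0 : 0 ≤ b := norm_nonneg _
  rcases hb0.eq_or_lt with hz | hpos
  · rw [← hz, Real.zero_rpow (by linarith)]
    positivity
  have hsq : b ≤ (n:ℝ) ^ ((1:ℝ) / 2) := by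
    rw [← Real.sqrt_eq_rpow]
    apply Real.le_sqrt_of_sq_le
    calc b ^ 2 = b * b := by ring
      _ ≤ (n / m) * m := mul_le_mul hb1 hb2 hb0 (by positivity)
      _ = n := by field_simp
  have e1 : b ^ q = b ^ (q - τ) * b ^ τ := by
    rw [← Real.rpow_add hpos]
    congr 1
    ring
  have h3 : b ^ (q - τ) ≤ (n:ℝ) ^ ((q - τ) / 2) := by
    refine (Real.rpow_le_rpow hb0 hsq (by linarith)).trans (le_of_eq ?_)
    rw [← Real.rpow_mul hn'.le]
    congr 1
    ring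
  have h4 : b ^ τ ≤ (n:ℝ) ^ τ * m ^ (-τ) := by
    refine (Real.rpow_le_rpow hb0 hb1 hτ0.le).trans (le_of_eq ?_)
    rw [Real.div_rpow hn'.le hm.le, Real.rpow_neg hm.le, div_eq_mul_inv]
  have h5 : m ^ (-τ) ≤ (E:ℝ) ^ (-τ) + ((n - E : ℕ) : ℝ) ^ (-τ) := by
    have hE0 : 0 ≤ (E:ℝ) ^ (-τ) := by positivity
    have hE1 : 0 ≤ ((n - E : ℕ) : ℝ) ^ (-τ) := by positivity
    rcases le_total E (n - E) with h | h
    · rw [hmdef, min_eq_left h]
      linarith
    · rw [hmdef, min_eq_right h]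
      linarith
  rw [e1, Real.rpow_add hn', mul_assoc]
  apply mul_le_mul h3 _ (by positivity) (by positivity)
  exact h4.trans (mul_le_mul_of_nonneg_left h5 (by positivity))

theorem flat_sum {q τ : ℝ} (hτ0 : 0 < τ) (hτ1 : τ < 1) (hτq : τ ≤ q) {n : ℕ} (hn : 0 < n) :
    ∑ E ∈ Ico 1 n, ‖P n (fun _ => 1) E E‖ ^ q ≤
      2 / (1 - τ) * (n:ℝ) ^ ((q - τ) / 2 + τ + (1 - τ)) := by
  have hn' : (0:ℝ) < n := by exact_mod_cast hn
  have h1 : ∑ E ∈ Ico 1 n, ‖P n (fun _ => 1) E E‖ ^ q ≤ ∑ E ∈ Ico 1 n,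
      (n:ℝ) ^ ((q - τ) / 2 + τ) * ((E:ℝ) ^ (-τ) + ((n - E : ℕ) : ℝ) ^ (-τ)) := by
    apply sum_le_sum
    intro E hE
    have := Finset.mem_Ico.mp hE
    exact flat_pow hτ0 hτq hn this.1 this.2
  have hps : ∑ E ∈ Ico 1 n, (E:ℝ) ^ (-τ) ≤ (n:ℝ) ^ (1 - τ) / (1 - τ) := by
    rw [sum_Ico_eq_sum_range]
    have h2 := Pool.Agent.W688.TBM.ps1 hτ0.le hτ1 (n - 1)
    have h3 : (((n - 1 : ℕ)) : ℝ) ^ (1 - τ) ≤ (n:ℝ) ^ (1 - τ) := by
      apply Real.rpow_le_rpow (by positivity) _ (by linarith)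
      exact_mod_cast (by omega : n - 1 ≤ n)
    have h4 : ∑ k ∈ range (n - 1), (((1 + k : ℕ)) : ℝ) ^ (-τ) =
        ∑ k ∈ range (n - 1), ((k:ℝ) + 1) ^ (-τ) := by
      apply sum_congr rfl
      intro k _
      push_cast
      rw [add_comm]
    rw [h4]
    refine h2.trans ?_
    apply div_le_div_of_nonneg_right h3
    linarith
  have hrefl : ∑ E ∈ Ico 1 n, ((n - E : ℕ) : ℝ) ^ (-τ) = ∑ E ∈ Ico 1 n, (E:ℝ) ^ (-τ) := by
    apply sum_nbij' (fun E => n - E) (fun E => n - E)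
    · intro a ha
      rw [Finset.mem_Ico] at ha ⊢
      omega
    · intro a ha
      rw [Finset.mem_Ico] at ha ⊢
      omega
    · intro a ha
      rw [Finset.mem_Ico] at ha
      omega
    · intro a ha
      rw [Finset.mem_Ico] at ha
      omega
    · intro a _
      rfl
  rw [← mul_sum, sum_add_distrib, hrefl] at h1
  refine h1.trans ?_
  rw [Real.rpow_add hn' ((q - τ) / 2 + τ) (1 - τ)]
  calc (n:ℝ) ^ ((q - τ) / 2 + τ) * (∑ E ∈ Ico 1 n, (E:ℝ) ^ (-τ) + ∑ E ∈ Ico 1 n, (E:ℝ) ^ (-τ))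
      ≤ (n:ℝ) ^ ((q - τ) / 2 + τ) * ((n:ℝ) ^ (1 - τ) / (1 - τ) + (n:ℝ) ^ (1 - τ) / (1 - τ)) := by
        gcongr
    _ = _ := by ring

theorem t_w : S_w := by
  intro hR q hq
  obtain ⟨C, hC, hT⟩ := w_trunc hR hq
  have hq0 : 0 < q := by linarith
  refine ⟨C, hC, hT, ?_⟩
  obtain ⟨τ, hτ1, hτ2⟩ : ∃ τ : ℝ, max 0 (2 - q) < τ ∧ τ < 1 := by
    apply _root_.exists_between
    exact max_lt one_pos (by linarith)
  have hτ0 : 0 < τ := lt_of_le_of_lt (le_max_left _ _) hτ1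
  have hτ3 : 2 - q < τ := lt_of_le_of_lt (le_max_right _ _) hτ1
  have hlim : Tendsto (fun n : ℕ => (2 * (2 / (1 - τ))) * (n:ℝ) ^ (-((q + τ) / 2 - 1))) atTop
      (𝓝 ((2 * (2 / (1 - τ))) * 0)) := by
    apply Tendsto.const_mul
    exact (tendsto_rpow_neg_atTop (by linarith)).comp tendsto_natCast_atTop_atTop
  rw [mul_zero] at hlim
  refine tendsto_of_tendsto_of_tendsto_of_le_of_le' tendsto_const_nhds hlim ?_ ?_
  · filter_upwards with n
    apply mul_nonneg (by positivity)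
    exact sum_nonneg fun i _ => by positivity
  · filter_upwards [eventually_ge_atTop 1] with n hn
    have hn' : (0:ℝ) < n := by exact_mod_cast (by omega)
    rw [sum_Ioo n (fun D => ‖AD n (fun _ => 1) D‖ ^ q)]
    have e1 : ∑ E ∈ Ico 1 n, (‖AD n (fun _ => 1) (E:ℤ)‖ ^ q + ‖AD n (fun _ => 1) ((E:ℤ) - n)‖ ^ q) =
        2 * ∑ E ∈ Ico 1 n, ‖P n (fun _ => 1) E E‖ ^ q := by
      rw [mul_sum]
      apply sum_congr rfl
      intro E hE
      have h2 := Finset.mem_Ico.mp hE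
      rw [AD_pos _ h2.2, AD_neg _ h2.2]
      have h3 : (fun _ : ℕ => ((1:ℝ):ℂ)) = fun _ => 1 := by
        ext; simp
      rw [h3, flat_n (by omega) h2.1 h2.2, zero_sub, norm_neg]
      ring
    rw [e1]
    have h4 := flat_sum hτ0 hτ2 (by linarith : τ ≤ q) (by omega : 0 < n)
    calc (n:ℝ) ^ (-q) * (2 * ∑ E ∈ Ico 1 n, ‖P n (fun _ => 1) E E‖ ^ q)
        ≤ (n:ℝ) ^ (-q) * (2 * (2 / (1 - τ) * (n:ℝ) ^ ((q - τ) / 2 + τ + (1 - τ)))) := by
          gcongr
      _ = (2 * (2 / (1 - τ))) * ((n:ℝ) ^ (-q) * (n:ℝ) ^ ((q - τ) / 2 + τ + (1 - τ))) := by ring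
      _ = _ := by
          rw [← Real.rpow_add hn']
          congr 2
          ring

end Pool.Agent.W688.TBW
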